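import Pool.Agent.D0H65.OV.LgB

/-! Project OV (helper28), package G (helper65): the logarithmic estimate. -/

set_option autoImplicit false

open MeasureTheory Set Metric Filter Topology
open scoped ContDiff ENNReal
open H459R3.NS Pool.Agent.W268.NS

namespace Pool.Agent.D0H65.OV

open Pool.Agent.Q67.AXI Pool.Agent.TH305.AX Pool.Agent.TH305.DR Pool.Agent.Q85.CL
open Pool.Agent.D0H28.OV
open Pool.Agent.W583.MD (sm_pd cs_pd Z Z.add Z.sub Z.smul Z.sum int_cs Z_pd slice hd_slice)
open Pool.Agent.Q257.AXI (sg_sm RR_mul RR_add sm_RR)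
open Pool.Agent.Q175.AX (pd_mul_at pd_comp_at RR_sm lap_sm gr2_sm gr2_nn RR_sq RR_sq' gr2_int gr2_cs
  RRsg_int RRsg_int' axis_ae)

/-- The logarithm, continued smoothly. -/
theorem beta_ex {ε : ℝ} (hε : 0 < ε) : ∃ β : ℝ → ℝ, ContDiff ℝ ∞ β ∧
    (∀ s ≤ 1, β s = Real.log (1 + ε) - Real.log (1 + ε - s)) ∧
    (∀ s ≤ 1, deriv (deriv β) s = deriv β s ^ 2) := by
  obtain ⟨T, hT⟩ : ∃ T : ℝ → ℝ, T = fun s => Real.smoothTransition ((s - (1 + ε / 2)) * (4 / ε)) := ⟨_, rfl⟩
  obtain ⟨θ, hθ⟩ : ∃ θ : ℝ → ℝ, θ = fun s => (1 + ε - s) * (1 - T s) + T s := ⟨_, rfl⟩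
  have sT : ContDiff ℝ ∞ T := by
    rw [hT]
    exact Real.smoothTransition.contDiff.comp (by fun_prop)
  have sθ : ContDiff ℝ ∞ θ := by
    rw [hθ]
    exact ((contDiff_const.sub contDiff_id).mul (contDiff_const.sub sT)).add sT
  have hT0 : ∀ s, s ≤ 1 + ε / 2 → T s = 0 := by
    intro s hs
    rw [hT]
    exact Real.smoothTransition.zero_of_nonpos (mul_nonpos_of_nonpos_of_nonneg (by linarith) (by positivity))
  have hT1 : ∀ s, 1 + 3 * ε / 4 ≤ s → T s = 1 := by
    intro s hs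
    rw [hT]
    apply Real.smoothTransition.one_of_one_le
    have h1 : ε / 4 ≤ s - (1 + ε / 2) := by linarith
    calc (1 : ℝ) = ε / 4 * (4 / ε) := by field_simp
      _ ≤ (s - (1 + ε / 2)) * (4 / ε) := by gcongr
  have hTn : ∀ s, 0 ≤ T s := fun s => by rw [hT]; exact Real.smoothTransition.nonneg _
  have hTl : ∀ s, T s ≤ 1 := fun s => by rw [hT]; exact Real.smoothTransition.le_one _
  have hθp : ∀ s, 0 < θ s := by
    intro s
    rw [hθ]
    simp only
    rcases le_total (1 + 3 * ε / 4) s with h | h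
    · rw [hT1 s h]
      norm_num
    · have h1 := hTn s
      have h2 := hTl s
      have h3 : ε / 4 ≤ 1 + ε - s := by linarith
      rcases h2.eq_or_lt with h4 | h4
      · rw [h4]
        norm_num
      · have : 0 < (1 + ε - s) * (1 - T s) := mul_pos (by linarith) (by linarith)
        linarith
  have hθ1 : ∀ s, s ≤ 1 + ε / 2 → θ s = 1 + ε - s := by
    intro s hs
    rw [hθ]
    simp only
    rw [hT0 s hs]
    ring
  refine ⟨fun s => Real.log (1 + ε) - Real.log (θ s), contDiff_const.sub (sθ.log fun s => (hθp s).ne'), ?_, ?_⟩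
  · intro s hs
    simp only
    rw [hθ1 s (by linarith)]
  · intro s hs
    have hd : ∀ r < 1 + ε / 2, deriv (fun s => Real.log (1 + ε) - Real.log (θ s)) r = (1 + ε - r)⁻¹ := by
      intro r hr
      have hev : (fun s => Real.log (1 + ε) - Real.log (θ s)) =ᶠ[𝓝 r] fun s => Real.log (1 + ε) - Real.log (1 + ε - s) := by
        filter_upwards [Iio_mem_nhds hr] with u hu
        rw [hθ1 u (le_of_lt hu)]
      rw [hev.deriv_eq]
      have h1 : HasDerivAt (fun s : ℝ => 1 + ε - s) (-1) r := by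
        simpa using (hasDerivAt_id r).const_sub (1 + ε)
      have h2 := (h1.log (by linarith)).const_sub (Real.log (1 + ε))
      rw [h2.deriv]
      rw [neg_div, neg_neg, one_div]
    have hs' : s < 1 + ε / 2 := by linarith
    have hev : deriv (fun s => Real.log (1 + ε) - Real.log (θ s)) =ᶠ[𝓝 s] fun r => (1 + ε - r)⁻¹ := by
      filter_upwards [Iio_mem_nhds hs'] with u hu
      exact hd u hu
    rw [hev.deriv_eq, hd s hs']
    have h1 : HasDerivAt (fun s : ℝ => 1 + ε - s) (-1) s := by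
      simpa using (hasDerivAt_id s).const_sub (1 + ε)
    have h2 : HasDerivAt (fun r : ℝ => (1 + ε - r)⁻¹) (- -1 / (1 + ε - s) ^ 2) s := h1.inv (by linarith)
    rw [h2.deriv, inv_pow, neg_neg, one_div]

/-- The differential inequality. -/
theorem der : ∃ c C : ℝ, 0 < c ∧ 0 < C ∧ ∀ (a b K : ℝ) (f F : ℝ → V → ℝ), Dr a b K f F →
    ∀ β : ℝ → ℝ, ContDiff ℝ ∞ β → β 0 = 0 → (∀ s ≤ 1, deriv (deriv β) s = deriv β s ^ 2) →
      ∀ t ∈ Ioo a b, ∃ D' : ℝ, HasDerivAt (fun s => ∫ x, ch x ^ 2 * β (f s x)) D' t ∧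
        D' ≤ -c * (∫ x, ch x ^ 2 * β (f t x)) + C * (16 + K) := by
  obtain ⟨c, C, hc, hC, hsp⟩ := space
  refine ⟨c, C, hc, hC, fun a b K f F hD β sβ hβ0 hββ t ht => ?_⟩
  have sft : ContDiff ℝ ∞ (f t) := slice hD.smf ht
  have sFt : ContDiff ℝ ∞ (F t) := slice hD.smF ht
  obtain ⟨w, hw⟩ : ∃ w : V → ℝ, w = fun x => β (f t x) := ⟨_, rfl⟩
  have sw : ContDiff ℝ ∞ w := by
    rw [hw]
    exact sβ.comp sft
  have aw : AxF w := fun θ x => by rw [hw]; simp only [hD.axf t ht θ x]
  have w0 : ∀ x, sg x = 0 → w x = 0 := by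
    intro x hx
    rw [hw]
    simp only
    rw [hD.ax0 t ht x hx]
    exact hβ0
  obtain ⟨i1, h1⟩ := hsp w (F t) sw sFt aw (hD.axF t ht) w0
  -- the derivative in time
  obtain ⟨ρ, hρ⟩ := ch_cs.isCompact.isBounded.subset_closedBall (0 : V)
  obtain ⟨G, hG⟩ : ∃ G : ℝ → V → ℝ, G = fun s x => ch x ^ 2 * β (f s x) := ⟨_, rfl⟩
  have sG : ContDiffOn ℝ ∞ (fun z : ℝ × V => G z.1 z.2) (Ioo a b ×ˢ univ) := by
    rw [hG]
    have h1 : ContDiffOn ℝ ∞ (fun z : ℝ × V => β (f z.1 z.2)) (Ioo a b ×ˢ univ) :=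
      sβ.comp_contDiffOn hD.smf
    have h2 : ContDiffOn ℝ ∞ (fun z : ℝ × V => ch z.2 ^ 2) (Ioo a b ×ˢ univ) :=
      ((ch_sm.comp contDiff_snd).pow 2).contDiffOn
    exact h2.mul h1
  have cG : ∀ s ∈ Ioo a b, ∀ z ∉ closedBall (0 : V) ρ, G s z = 0 := by
    intro s _ z hz'
    rw [hG]
    show ch z ^ 2 * β (f s z) = 0
    rw [image_eq_zero_of_notMem_tsupport fun h => hz' (hρ h)]
    ring
  have hder := Pool.Agent.Q119.AXI.hd_int' sG cG ht
  have hdG : ∀ x, deriv (fun s => G s x) t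
      = ch x ^ 2 * (deriv β (f t x) * deriv (fun s => f s x) t) := by
    intro x
    have h1 : HasDerivAt (fun s => f s x) (deriv (fun s => f s x) t) t := by
      have := hd_slice hD.smf ht x
      rw [← this.deriv] at this
      exact this
    have h2 : HasDerivAt β (deriv β (f t x)) (f t x) :=
      ((sβ.differentiable (by norm_cast)) _).hasDerivAt
    have h3 : HasDerivAt (fun s => β (f s x)) (deriv β (f t x) * deriv (fun s => f s x) t) t :=
      h2.comp t h1
    have h4 := h3.const_mul (ch x ^ 2)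
    rw [hG]
    exact h4.deriv
  refine ⟨∫ x, deriv (fun s => G s x) t, ?_, ?_⟩
  · rw [hG] at hder ⊢
    exact hder
  have heq : ∫ x, deriv (fun s => G s x) t =
      ∫ x, ch x ^ 2 * (lap w x - gr2 w x - 2 / sg x * RR w x - TT (F t) w x) := by
    apply integral_congr_ae
    filter_upwards [axis_ae] with x hx
    rw [hdG x]
    by_cases hxs : x ∈ tsupport ch
    · rw [hD.eq t ht x (ch_Co hxs) hx]
      have h1 : lap w x = deriv β (f t x) * lap (f t) x + deriv (deriv β) (f t x) * gr2 (f t) x := by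
        rw [hw]; exact lap_chain sβ sft x
      have h2 : RR w x = deriv β (f t x) * RR (f t) x := by rw [hw]; exact RR_chain sβ sft x
      have h3 : TT (F t) w x = deriv β (f t x) * TT (F t) (f t) x := by
        rw [hw]; exact TT_chain sβ sft x
      have h4 : gr2 w x = deriv β (f t x) ^ 2 * gr2 (f t) x := by
        unfold gr2
        rw [Finset.mul_sum]
        refine Finset.sum_congr rfl fun i _ => ?_
        have h5 : pd i w x = deriv β (f t x) * pd i (f t) x := by rw [hw]; exact pd_chain sβ sft i x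
        rw [h5, mul_pow]
      rw [h1, h2, h3, h4, hββ _ (abs_le.1 (hD.bd t ht x)).2]
      ring
    · rw [image_eq_zero_of_notMem_tsupport hxs]
      simp
  rw [heq]
  refine h1.trans ?_
  rw [hw]
  have h5 := mul_le_mul_of_nonneg_left (hD.mor t ht) hC.le
  linarith

/-- Integration of the differential inequality. -/
theorem gron {a b c C : ℝ} (hc : 0 < c) {y : ℝ → ℝ} {y' : ℝ → ℝ}
    (hy : ∀ t ∈ Ioo a b, HasDerivAt y (y' t) t) (hy' : ∀ t ∈ Ioo a b, y' t ≤ -c * y t + C) {t₁ t : ℝ}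
    (h1 : t₁ ∈ Ioo a b) (ht : t ∈ Ioo a b) (h : t₁ ≤ t) :
    y t ≤ C / c + Real.exp (-(c * (t - t₁))) * (y t₁ - C / c) := by
  have hg : ∀ s ∈ Ioo a b, HasDerivAt (fun s => Real.exp (c * s) * (y s - C / c))
      (Real.exp (c * s) * (c * (y s - C / c) + y' s)) s := by
    intro s hs
    have e1 : HasDerivAt (fun s : ℝ => Real.exp (c * s)) (Real.exp (c * s) * c) s := by
      have := ((hasDerivAt_id s).const_mul c).exp
      simpa using this
    have e2 := e1.mul ((hy s hs).sub_const (C / c))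
    refine e2.congr_deriv ?_
    ring
  have hsub : Icc t₁ t ⊆ Ioo a b := fun s hs => ⟨h1.1.trans_le hs.1, hs.2.trans_lt ht.2⟩
  have hanti : AntitoneOn (fun s => Real.exp (c * s) * (y s - C / c)) (Icc t₁ t) := by
    apply antitoneOn_of_deriv_nonpos (convex_Icc _ _)
    · intro s hs
      exact (hg s (hsub hs)).continuousAt.continuousWithinAt
    · intro s hs
      rw [interior_Icc] at hs
      exact (hg s (hsub (Ioo_subset_Icc_self hs))).differentiableAt.differentiableWithinAt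
    · intro s hs
      rw [interior_Icc] at hs
      have hs' := hsub (Ioo_subset_Icc_self hs)
      rw [(hg s hs').deriv]
      have h2 := hy' s hs'
      have h3 : c * (y s - C / c) = c * y s - C := by
        field_simp
      rw [h3]
      have h4 := Real.exp_pos (c * s)
      nlinarith
  have h2 := hanti (left_mem_Icc.2 h) (right_mem_Icc.2 h) h
  simp only at h2
  have h3 : Real.exp (-(c * (t - t₁))) * Real.exp (c * t) = Real.exp (c * t₁) := by
    rw [← Real.exp_add]
    congr 1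
    ring
  have h4 : y t - C / c ≤ Real.exp (-(c * (t - t₁))) * (y t₁ - C / c) := by
    have h5 := Real.exp_pos (c * t)
    have h6 : Real.exp (c * t) * (Real.exp (-(c * (t - t₁))) * (y t₁ - C / c)) =
        Real.exp (c * t₁) * (y t₁ - C / c) := by
      rw [← h3]
      ring
    rw [← h6] at h2
    exact le_of_mul_le_mul_left h2 h5
  linarith

theorem lg : StmLg := by
  obtain ⟨c, C, hc, hC, hder⟩ := der
  intro K ε₀ hK hε₀
  have hm := mass_pos
  obtain ⟨m, hme⟩ : ∃ m : ℝ, m = ∫ x, ch x ^ 2 := ⟨_, rfl⟩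
  rw [← hme] at hm
  have q0 : Integrable (fun x => ch x ^ 2) := (ch_sm.continuous.pow 2).integrable_of_hasCompactSupport ch2_cs
  obtain ⟨D, hDe⟩ : ∃ D : ℝ, D = C * (16 + K) / c := ⟨_, rfl⟩
  have hD0 : 0 < D := by rw [hDe]; positivity
  obtain ⟨Y, hY⟩ : ∃ Y : ℝ, Y = D + 1 + m * Real.log 2 := ⟨_, rfl⟩
  have hl2 : 0 < Real.log 2 := Real.log_pos (by norm_num)
  have hY0 : 0 < Y := by rw [hY]; positivity
  obtain ⟨ε, hεe⟩ : ∃ ε : ℝ, ε = min (1 / 2) (Real.exp (-(Y / ε₀))) := ⟨_, rfl⟩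
  have hε : 0 < ε := by rw [hεe]; exact lt_min (by norm_num) (Real.exp_pos _)
  have hε2 : ε ≤ 1 / 2 := by rw [hεe]; exact min_le_left _ _
  have hε1 : Real.log ε ≤ -(Y / ε₀) := by
    have h1 : ε ≤ Real.exp (-(Y / ε₀)) := by rw [hεe]; exact min_le_right _ _
    have := Real.log_le_log hε h1
    rwa [Real.log_exp] at this
  obtain ⟨Y1, hY1⟩ : ∃ Y1 : ℝ, Y1 = m * (Real.log (1 + ε) - Real.log ε) := ⟨_, rfl⟩
  have hY10 : 0 ≤ Y1 := by
    rw [hY1]
    have : Real.log ε ≤ Real.log (1 + ε) := Real.log_le_log hε (by linarith)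
    exact mul_nonneg hm.le (by linarith)
  refine ⟨max 1 (2 * Y1 / c), ε, le_max_left _ _, hε, hε2, ?_⟩
  intro a b f F hDr t ht hta
  obtain ⟨L, hL⟩ : ∃ L : ℝ, L = max 1 (2 * Y1 / c) := ⟨_, rfl⟩
  rw [← hL] at hta
  have hL1 : 1 ≤ L := by rw [hL]; exact le_max_left _ _
  have hL2 : 2 * Y1 / c ≤ L := by rw [hL]; exact le_max_right _ _
  obtain ⟨β, sβ, hβ, hββ⟩ := beta_ex hε
  have hβ0 : β 0 = 0 := by
    rw [hβ 0 (by norm_num)]
    simp
  choose! y' hy1 hy2 using fun t ht => hder a b K f F hDr β sβ hβ0 hββ t ht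
  obtain ⟨y, hye⟩ : ∃ y : ℝ → ℝ, y = fun s => ∫ x, ch x ^ 2 * β (f s x) := ⟨_, rfl⟩
  obtain ⟨t₁, ht1⟩ : ∃ t₁ : ℝ, t₁ = t - L / 2 := ⟨_, rfl⟩
  have ht1' : t₁ ∈ Ioo a b := by
    rw [ht1]
    exact ⟨by linarith, by linarith [ht.2]⟩
  have hgr := gron (a := a) (b := b) (y := y) hc (by rw [hye]; exact hy1) (by rw [hye]; exact hy2) ht1' ht
    (by rw [ht1]; linarith)
  have hβm : ∀ s ∈ Ioo a b, ∀ x, -Real.log 2 ≤ β (f s x) ∧ β (f s x) ≤ Real.log (1 + ε) - Real.log ε := by
    intro s hs x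
    have hb := abs_le.1 (hDr.bd s hs x)
    rw [hβ _ hb.2]
    constructor
    · have h1 : Real.log (1 + ε - f s x) ≤ Real.log (2 * (1 + ε)) := Real.log_le_log (by linarith) (by linarith)
      rw [Real.log_mul (by norm_num) (by positivity)] at h1
      linarith
    · have h1 : Real.log ε ≤ Real.log (1 + ε - f s x) := Real.log_le_log hε (by linarith)
      linarith
  have hint : ∀ s ∈ Ioo a b, Integrable (fun x => ch x ^ 2 * β (f s x)) := fun s hs =>
    ch2_int (sβ.continuous.comp (slice hDr.smf hs).continuous)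
  have hy_up : y t₁ ≤ Y1 := by
    rw [hye, hY1, hme, mul_comm, ← integral_const_mul]
    refine integral_mono (hint t₁ ht1') (q0.const_mul _) fun x => ?_
    show ch x ^ 2 * β (f t₁ x) ≤ (Real.log (1 + ε) - Real.log ε) * ch x ^ 2
    rw [mul_comm]
    exact mul_le_mul_of_nonneg_right (hβm t₁ ht1' x).2 (sq_nonneg _)
  have hyt : y t ≤ D + 1 := by
    have h1 : Real.exp (-(c * (t - t₁))) * (y t₁ - C * (16 + K) / c) ≤ 1 := by
      have e1 : c * (t - t₁) = c * L / 2 := by rw [ht1]; ring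
      rw [e1, ← hDe]
      have h2 : Real.exp (-(c * L / 2)) * (y t₁ - D) ≤ Real.exp (-(c * L / 2)) * Y1 :=
        mul_le_mul_of_nonneg_left (by linarith) (Real.exp_pos _).le
      refine h2.trans ?_
      have h3 : Y1 ≤ c * L / 2 := by
        rw [div_le_iff₀ hc] at hL2
        linarith
      have h4 : Y1 ≤ Real.exp (c * L / 2) := h3.trans ((by linarith : c * L / 2 ≤ c * L / 2 + 1).trans (Real.add_one_le_exp _))
      calc Real.exp (-(c * L / 2)) * Y1 ≤ Real.exp (-(c * L / 2)) * Real.exp (c * L / 2) :=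
            mul_le_mul_of_nonneg_left h4 (Real.exp_pos _).le
        _ = 1 := by rw [← Real.exp_add, neg_add_cancel, Real.exp_zero]
    rw [hDe]
    linarith
  -- Chebyshev
  obtain ⟨S, hS⟩ : ∃ S : Set V, S = {x : V | x ∈ Cy 0 (3 / 4) (3 / 4) ∧ 1 - ε < f t x} := ⟨_, rfl⟩
  rw [← hS]
  have sft : ContDiff ℝ ∞ (f t) := slice hDr.smf ht
  have mCy : MeasurableSet (Cy 0 (3 / 4) (3 / 4)) := by
    unfold Cy
    have h2 : Measurable (fun x : V => x 2) := measurable_pi_apply (2 : Fin 3)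
    have h3 : Measurable (fun x : V => |x 2 - 0|) := (h2.sub_const 0).abs
    exact (measurableSet_le sg_meas measurable_const).inter (measurableSet_le h3 measurable_const)
  have mS : MeasurableSet S := by
    rw [hS]
    exact mCy.inter (measurableSet_lt measurable_const sft.continuous.measurable)
  have hSsub : S ⊆ Co 0 1 1 := by
    intro x hx
    rw [hS] at hx
    obtain ⟨⟨h1, h2⟩, -⟩ := hx
    refine ⟨?_, ?_⟩
    · exact h1.trans_lt (by norm_num)
    · exact h2.trans_lt (by norm_num)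
  have hSfin : volume S < ⊤ := (measure_mono hSsub).trans_lt ((vol_Co 0 1 one_pos).trans_lt ENNReal.ofReal_lt_top)
  have hle : volume.real S * (-Real.log ε) ≤ Y := by
    have e1 : volume.real S * (-Real.log ε) = ∫ x, S.indicator (fun _ => -Real.log ε) x := by
      rw [integral_indicator mS, setIntegral_const, smul_eq_mul]
    have e2 : Y = D + 1 + ∫ x, Real.log 2 * ch x ^ 2 := by
      rw [hY, integral_const_mul, ← hme]
      ring
    have e3 : (∫ x, ch x ^ 2 * β (f t x)) + ∫ x, Real.log 2 * ch x ^ 2 =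
        ∫ x, (ch x ^ 2 * β (f t x) + Real.log 2 * ch x ^ 2) := (integral_add (hint t ht) (q0.const_mul _)).symm
    have e4 : ∫ x, S.indicator (fun _ => -Real.log ε) x ≤ ∫ x, (ch x ^ 2 * β (f t x) + Real.log 2 * ch x ^ 2) := by
      refine integral_mono ?_ ((hint t ht).add (q0.const_mul _)) fun x => ?_
      · exact (integrable_indicator_iff mS).2 (integrableOn_const hSfin.ne)
      · show S.indicator (fun _ => -Real.log ε) x ≤ ch x ^ 2 * β (f t x) + Real.log 2 * ch x ^ 2
        by_cases hx : x ∈ S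
        · rw [indicator_of_mem hx]
          rw [hS] at hx
          obtain ⟨h1, h2⟩ := hx
          have hb := abs_le.1 (hDr.bd t ht x)
          rw [ch_one h1, hβ _ hb.2]
          have h3 : Real.log (1 + ε - f t x) ≤ Real.log (2 * ε) := Real.log_le_log (by linarith) (by linarith)
          rw [Real.log_mul (by norm_num) hε.ne'] at h3
          have h4 : 0 ≤ Real.log (1 + ε) := Real.log_nonneg (by linarith)
          linarith
        · rw [indicator_of_notMem hx]
          have h1 := (hβm t ht x).1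
          have h2 : ch x ^ 2 * β (f t x) + Real.log 2 * ch x ^ 2 = ch x ^ 2 * (β (f t x) + Real.log 2) := by ring
          rw [h2]
          exact mul_nonneg (sq_nonneg _) (by linarith)
    rw [e1, e2]
    have h5 : y t = ∫ x, ch x ^ 2 * β (f t x) := by rw [hye]
    linarith
  show volume.real S ≤ ε₀
  have h6 : Y / ε₀ ≤ -Real.log ε := by linarith
  have h7 : 0 ≤ volume.real S := measureReal_nonneg
  have h8 := (mul_le_mul_of_nonneg_left h6 h7).trans hle
  have h9 : volume.real S * (Y / ε₀) = Y * (volume.real S / ε₀) := by ring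
  rw [h9] at h8
  have h10 : volume.real S / ε₀ ≤ 1 := by
    by_contra hcon
    have := mul_lt_mul_of_pos_left (not_le.1 hcon) hY0
    linarith
  rwa [div_le_one hε₀] at h10

end Pool.Agent.D0H65.OV
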