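import Pool.Agent.D0H65.OV.L6
import Pool.Agent.Q175.AX.CutL

/-! Project OV (helper28), package Q (helper65): the Morrey bound of the stream function from the
bound of the mass. -/

set_option autoImplicit false

open MeasureTheory Set Metric Filter Topology
open scoped ContDiff ENNReal
open H459R3.NS Pool.Agent.W268.NS Pool.Agent.Q67.VD

namespace Pool.Agent.D0H65.OV

open Pool.Agent.Q85.CC Pool.Agent.Q85.CL Pool.Agent.TH305.AX Pool.Agent.Q67.AXI
open Pool.Agent.D0H28.OV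

/-- The error of the cut-off. -/
theorem cutLL {K K1 c r h r1 h1 : ℝ} {v : V → V} {φ F : V → ℝ} (hK : 0 ≤ K) (hK1 : 0 ≤ K1)
    (hAxF : StmAxF) (hF : ContDiff ℝ ∞ F) (aF : AxF F)
    (hLL : ∀ x ∈ Co c r h, sg x ≠ 0 → LL F x = -OO v x)
    (hφ : Cut c r h r1 h1 K φ)
    (hb : ∀ x ∈ Co c r h, x ∈ Out c r h r1 h1 → |F x| ≤ K1 ∧ |pd 2 F x| ≤ K1 ∧ |RR F x| ≤ K1)
    {x : V} (hs : sg x ≠ 0) :
    |LL (fun y => φ y * F y) x| ≤ (Co c r h).indicator (fun y => |OO v y|) x
      + (Co c r h).indicator (fun _ : V => 7 * K * K1) x := by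
  have hφs := hφ.sm
  rw [Pool.Agent.Q175.AX.LL_mul hφs hF]
  have hsp : 0 < sg x := lt_of_le_of_ne (Pool.Agent.Q175.AX.sg_nn x) (Ne.symm hs)
  have hcut : |φ x * LL F x| ≤ (Co c r h).indicator (fun y => |OO v y|) x := by
    by_cases hx : x ∈ Co c r h
    · rw [indicator_of_mem hx, hLL x hx hs, abs_mul, abs_neg, abs_of_nonneg (hφ.nn x)]
      exact mul_le_of_le_one_left (abs_nonneg _) (hφ.le x)
    · have h0 : φ x = 0 := by
        by_contra hcon
        exact hx (Pool.Agent.Q175.AX.cut_mem hφ hcon)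
      rw [h0, zero_mul, abs_zero]
      exact indicator_nonneg (fun _ _ => abs_nonneg _) _
  have herr : |2 * (∑ i, pd i φ x * pd i F x) + F x * LL φ x|
      ≤ (Co c r h).indicator (fun _ : V => 7 * K * K1) x := by
    rcases Pool.Agent.Q175.AX.cut_dich hφ x with ⟨ho, hc⟩ | ⟨k, hk⟩
    · rw [indicator_of_mem hc]
      obtain ⟨b1, b2, b3⟩ := hb x hc ho
      obtain ⟨c1, c2, c3⟩ := hφ.bd x
      obtain ⟨-, -, -, q, sq, aq, hq⟩ := hAxF _ hF aF
      obtain ⟨-, -, -, g, sg', ag, hg⟩ := hAxF _ hφs hφ.ax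
      have hgb : |g x| ≤ K := by
        have := (hg x).2.2
        rw [this, abs_mul, abs_of_pos hsp] at c3
        nlinarith
      have t1 : |pd 0 φ x * pd 0 F x + pd 1 φ x * pd 1 F x| ≤ K * K1 := by
        have e : pd 0 φ x * pd 0 F x + pd 1 φ x * pd 1 F x = g x * RR F x := by
          rw [(hg x).1, (hg x).2.1, (hq x).1, (hq x).2.1, (hq x).2.2]
          show x 0 * g x * (x 0 * q x) + x 1 * g x * (x 1 * q x) = g x * ((x 0 ^ 2 + x 1 ^ 2) * q x)
          ring
        rw [e, abs_mul]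
        exact mul_le_mul hgb b3 (abs_nonneg _) hK
      have t2 : |pd 2 φ x * pd 2 F x| ≤ K * K1 := by
        rw [abs_mul]
        exact mul_le_mul (c1 2) b2 (abs_nonneg _) hK
      have t3 : |LL φ x| ≤ 3 * K := by
        unfold LL
        have : |2 / sg x * RR φ x| ≤ 2 * K := by
          rw [abs_mul, abs_div, abs_of_pos hsp, abs_two]
          calc 2 / sg x * |RR φ x| ≤ 2 / sg x * (K * sg x) := by gcongr
            _ = 2 * K := by field_simp
        calc |lap φ x + 2 / sg x * RR φ x| ≤ |lap φ x| + |2 / sg x * RR φ x| := abs_add_le _ _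
          _ ≤ K + 2 * K := add_le_add c2 this
          _ = 3 * K := by ring
      have t4 : |F x * LL φ x| ≤ K1 * (3 * K) := by
        rw [abs_mul]
        exact mul_le_mul b1 t3 (abs_nonneg _) hK1
      rw [Fin.sum_univ_three]
      have h1' := abs_le.1 t1
      have h2' := abs_le.1 t2
      have h4' := abs_le.1 t4
      rw [abs_le]
      constructor <;> nlinarith [h1'.1, h1'.2, h2'.1, h2'.2, h4'.1, h4'.2]
    · obtain ⟨a1, a2, a3⟩ := Pool.Agent.Q175.AX.const_pd hk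
      have : 2 * (∑ i, pd i φ x * pd i F x) + F x * LL φ x = 0 := by
        unfold LL
        rw [a2, a3]
        simp [a1]
      rw [this, abs_zero]
      exact indicator_nonneg (fun _ _ => by positivity) _
  calc |φ x * LL F x + 2 * (∑ i, pd i φ x * pd i F x) + F x * LL φ x|
      = |φ x * LL F x + (2 * (∑ i, pd i φ x * pd i F x) + F x * LL φ x)| := by rw [add_assoc]
    _ ≤ |φ x * LL F x| + |2 * (∑ i, pd i φ x * pd i F x) + F x * LL φ x| := abs_add_le _ _
    _ ≤ _ := add_le_add hcut herr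

/-- Q. -/
theorem mor (hAlg : StmAlg) (hAxF : StmAxF) (hFF : StmFF) (hL6 : StmL6) : StmMor := by
  intro K c r h r1 h1 M hK hr1 hr1r hr hh1 hh1h hh hM
  obtain ⟨p1, p2, -, p4⟩ := hFF
  obtain ⟨C, hC, hL6⟩ := hL6
  obtain ⟨K1, hK1, hK2⟩ := p4 K c r h r1 h1 hK hr1 hr1r hh1 hh1h hh hr
  have hr0 : 0 ≤ r := (hr1.trans hr1r).le
  obtain ⟨vol, hvol⟩ : ∃ vol : ℝ, vol = (volume (Co c r h)).toReal := ⟨_, rfl⟩
  have hvol0 : 0 ≤ vol := by rw [hvol]; exact ENNReal.toReal_nonneg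
  refine ⟨C * (M + vol * (7 * K * K1)) ^ 6, by positivity, ?_⟩
  intro v φ hv hva hdf hφ hb hmass c' s hs hsub
  obtain ⟨sF0, aF0, -⟩ := p1 v hv hva
  obtain ⟨⟨sU, sW, sJ, sO⟩, -⟩ := hAlg v hv hva
  have hφs := hφ.sm
  obtain ⟨F, hF⟩ : ∃ F : V → ℝ, F = fun y => φ y * FF v y := ⟨_, rfl⟩
  have sF : ContDiff ℝ ∞ F := by rw [hF]; exact hφs.mul sF0
  have cF : HasCompactSupport F := by rw [hF]; exact hφ.cs.mul_right
  have aF : AxF F := by rw [hF]; exact Pool.Agent.Q175.AX.AxF.mul hφ.ax aF0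
  have hpt : ∀ᵐ x : V, |LL F x| ≤ (Co c r h).indicator (fun y => |OO v y|) x
      + (Co c r h).indicator (fun _ : V => 7 * K * K1) x := by
    filter_upwards [Pool.Agent.Q175.AX.axis_ae] with x hx
    rw [hF]
    exact cutLL hK hK1 hAxF sF0 aF0 (fun y hy hys => (p2 c r h v hv hva hdf y hy).2 hys) hφ
      (hK2 v hv hva hdf hb) hx
  obtain ⟨-, -, -, q, sq, aq, hq⟩ := hAxF _ sF aF
  have i0 : Integrable (LL F) := LL_int sF cF sq.continuous hq
  have i1 : Integrable ((Co c r h).indicator (fun y => |OO v y|)) := by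
    rw [integrable_indicator_iff (Pool.Agent.Q175.AX.Co_meas c r h)]
    exact ((continuous_abs.comp sO.continuous).continuousOn.integrableOn_compact
      (Pool.Agent.Q175.AX.Cy_compact (c := c) (h := h) hr0)).mono_set
      (Pool.Agent.Q175.AX.Co_sub_Cy c r h)
  have i2 := Pool.Agent.Q175.AX.ind_int (c := c) (h := h) hr0 (7 * K * K1)
  have hI : ∫ x, |LL F x| ≤ M + vol * (7 * K * K1) := by
    calc ∫ x, |LL F x| ≤ ∫ x, ((Co c r h).indicator (fun y => |OO v y|) x
          + (Co c r h).indicator (fun _ : V => 7 * K * K1) x) :=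
        integral_mono_ae i0.abs (i1.add i2) hpt
      _ = (∫ x in Co c r h, |OO v x|) + vol * (7 * K * K1) := by
        rw [integral_add i1 i2, integral_indicator (Pool.Agent.Q175.AX.Co_meas c r h),
          Pool.Agent.Q175.AX.ind_val, ← hvol]
      _ ≤ _ := by linarith
  have hI0 : 0 ≤ ∫ x, |LL F x| := integral_nonneg fun x => abs_nonneg _
  have e : ∫ x in Co c' s s, sg x ^ 3 * FF v x ^ 6 = ∫ x in Co c' s s, sg x ^ 3 * F x ^ 6 := by
    refine setIntegral_congr_fun (Pool.Agent.Q175.AX.Co_meas c' s s) fun x hx => ?_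
    have h1' := hφ.one x (hsub hx)
    show sg x ^ 3 * FF v x ^ 6 = sg x ^ 3 * F x ^ 6
    rw [hF]
    simp only [h1', one_mul]
  rw [e]
  calc ∫ x in Co c' s s, sg x ^ 3 * F x ^ 6 ≤ C * s ^ 3 * (∫ x, |LL F x|) ^ 6 :=
        hL6 F sF cF aF c' s hs
    _ ≤ C * s ^ 3 * (M + vol * (7 * K * K1)) ^ 6 := by gcongr
    _ = _ := by ring

end Pool.Agent.D0H65.OV
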