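import Pool.Agent.D0H28.OV.Defs
import Pool.Agent.Q257.AXI.H0

/-! Project OV (helper28), package A (helper65): the axis formula. -/

set_option autoImplicit false

open MeasureTheory Set Metric Filter Topology
open scoped ContDiff
open H459R3.NS Pool.Agent.W268.NS Pool.Agent.Q67.VD

namespace Pool.Agent.D0H65.OV

open Pool.Agent.Q85.CC Pool.Agent.Q85.CL Pool.Agent.TH305.AX Pool.Agent.Q67.AXI
open Pool.Agent.D0H28.OV Pool.Agent.Q257.AXI

/-- The planar profile. -/
noncomputable def wp (w : Fin 2 → ℝ) : ℝ := 2 / (w 0 ^ 2 + w 1 ^ 2 + 1) ^ 2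

theorem wp_pos (w : Fin 2 → ℝ) : 0 < wp w := by
  unfold wp
  positivity

theorem wp_cont : Continuous wp := by
  unfold wp
  refine continuous_const.div (by fun_prop) fun w => ?_
  positivity

theorem prof_le (a b : ℝ) : 2 / (a ^ 2 + b ^ 2 + 1) ^ 2 ≤ 2 * ((1 + a ^ 2)⁻¹ * (1 + b ^ 2)⁻¹) := by
  rw [div_eq_mul_inv, ← mul_inv]
  have h : (1 + a ^ 2) * (1 + b ^ 2) ≤ (a ^ 2 + b ^ 2 + 1) ^ 2 := by
    nlinarith [sq_nonneg a, sq_nonneg b, mul_nonneg (sq_nonneg a) (sq_nonneg b), sq_nonneg (a ^ 2), sq_nonneg (b ^ 2)]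
  gcongr

theorem wp_int : Integrable wp := by
  have h1 : Integrable (fun w : Fin 2 → ℝ => ∏ i, (1 + w i ^ 2)⁻¹) := by
    rw [volume_pi]
    exact Integrable.fintype_prod (f := fun (_ : Fin 2) (t : ℝ) => (1 + t ^ 2)⁻¹) fun _ => integrable_inv_one_add_sq
  refine (h1.const_mul 2).mono' wp_cont.aestronglyMeasurable (Eventually.of_forall fun w => ?_)
  rw [Real.norm_of_nonneg (wp_pos w).le, Fin.prod_univ_two]
  exact prof_le _ _

theorem wp_integral_pos : 0 < ∫ w, wp w := by
  rw [integral_pos_iff_support_of_nonneg (fun w => (wp_pos w).le) wp_int]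
  have : Function.support wp = univ := by
    ext w
    simp [(wp_pos w).ne']
  rw [this]
  exact Measure.measure_univ_pos.2 (NeZero.ne _)

/-- Scaling of the first two coordinates. -/
theorem scal {d : ℝ} (hd : 0 < d) {G : V → ℝ} (hG : Continuous G) :
    ∫ x, G x = d ^ 2 * ∫ w : V, G ![d * w 0, d * w 1, w 2] := by
  have hdet : (Matrix.diagonal (![d, d, 1] : Fin 3 → ℝ)).det = d ^ 2 := by
    rw [Matrix.det_diagonal, Fin.prod_univ_three]
    show d * d * 1 = d ^ 2
    ring
  have h := Real.smul_map_diagonal_volume_pi (D := (![d, d, 1] : Fin 3 → ℝ)) (by rw [hdet]; positivity)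
  rw [hdet, abs_of_pos (by positivity)] at h
  calc ∫ x, G x = ∫ x, G x ∂(ENNReal.ofReal (d ^ 2) • Measure.map (Matrix.toLin' (Matrix.diagonal ![d, d, 1])) volume) := by
        rw [h]
    _ = d ^ 2 * ∫ x, G x ∂(Measure.map (Matrix.toLin' (Matrix.diagonal ![d, d, 1])) volume) := by
        rw [integral_smul_measure, ENNReal.toReal_ofReal (by positivity), smul_eq_mul]
    _ = d ^ 2 * ∫ w : V, G ![d * w 0, d * w 1, w 2] := by
        congr 1
        rw [integral_map]
        · refine integral_congr_ae (Eventually.of_forall fun w => ?_)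
          simp only
          congr 1
          ext i
          rw [Matrix.toLin'_apply, Matrix.mulVec_diagonal]
          fin_cases i <;> simp
        · exact (LinearMap.continuous_on_pi _).measurable.aemeasurable
        · exact hG.aestronglyMeasurable

theorem ax : StmAx := by
  refine ⟨∫ w, wp w, wp_integral_pos, ?_⟩
  intro F hFs hs
  have hF : ContDiff ℝ 1 F := hFs.of_le (by norm_cast)
  have hd : Differentiable ℝ F := hF.differentiable one_ne_zero
  have hpc : ∀ j : Fin 3, Continuous (pd j F) := fun j => (hF.continuous_fderiv (by norm_num)).clm_apply continuous_const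
  have hps : ∀ j : Fin 3, HasCompactSupport (pd j F) := fun j => hs.fderiv_apply (𝕜 := ℝ) (Pi.single j 1)
  have hB : ∀ j : Fin 3, ∃ M : ℝ, ∀ x, ‖pd j F x‖ ≤ M := fun j => (hpc j).bounded_above_of_compact_support (hps j)
  choose Mj hMj using hB
  have hRc : Continuous (RR F) := by
    unfold RR
    exact ((continuous_apply 0).mul (hpc 0)).add ((continuous_apply 1).mul (hpc 1))
  obtain ⟨R, hR⟩ := hs.isCompact.isBounded.subset_closedBall (0 : V)
  have hint : Integrable fun x => RR F x / sg x := by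
    refine sing_int hRc (R := |R|) (M := |Mj 0| + |Mj 1|) (abs_nonneg R) (by positivity) (fun x => ?_) (fun x hx i => ?_)
    · unfold RR
      have h1 : |pd 0 F x| ≤ |Mj 0| + |Mj 1| := (hMj 0 x).trans ((le_abs_self _).trans (by linarith [abs_nonneg (Mj 1)]))
      have h2 : |pd 1 F x| ≤ |Mj 0| + |Mj 1| := (hMj 1 x).trans ((le_abs_self _).trans (by linarith [abs_nonneg (Mj 0)]))
      refine (abs_add_le _ _).trans ?_
      rw [abs_mul, abs_mul]
      have h3 := mul_le_mul_of_nonneg_left h1 (abs_nonneg (x 0))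
      have h4 := mul_le_mul_of_nonneg_left h2 (abs_nonneg (x 1))
      linarith
    · have h1 : x ∈ tsupport F := by
        by_contra hcon
        apply hx
        have h2 : ∀ j : Fin 3, pd j F x = 0 := fun j => by
          by_contra h3
          exact hcon (by
            have h4 : x ∈ tsupport (fun y => fderiv ℝ F y (Pi.single j 1)) := subset_tsupport _ h3
            exact (tsupport_fderiv_apply_subset ℝ (Pi.single j 1)) h4)
        unfold RR
        rw [h2, h2]
        ring
      have h2 := hR h1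
      rw [mem_closedBall, dist_zero_right] at h2
      have h3 := norm_le_pi_norm x i
      rw [Real.norm_eq_abs] at h3
      exact h3.trans (h2.trans (le_abs_self R))
  refine ⟨hint, ?_⟩
  -- regularisation
  have hreg : ∀ d : ℝ, 0 < d → ∫ x, RR F x / (sg x + d ^ 2) =
      -∫ w : V, 2 / (w 0 ^ 2 + w 1 ^ 2 + 1) ^ 2 * F ![d * w 0, d * w 1, w 2] := by
    intro d hd0
    obtain ⟨ε, hεe⟩ : ∃ ε : ℝ, ε = d ^ 2 := ⟨_, rfl⟩
    have hε : 0 < ε := by rw [hεe]; positivity
    have hg : ∀ i, ContDiff ℝ ∞ (gw ε i) := fun i => sm_gw hε i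
    have hgd : ∀ i, Differentiable ℝ (gw ε i) := fun i => (hg i).differentiable (by norm_cast)
    have hZ : ∀ i : Fin 3, Integrable (pd i fun y => gw ε i y * F y) ∧ ∫ x, pd i (fun y => gw ε i y * F y) x = 0 := fun i =>
      int_pd1 (((hg i).of_le (by norm_cast)).mul hF) hs.mul_left i
    have e1 : ∀ x, RR F x / (sg x + ε) = (pd 0 (fun y => gw ε 0 y * F y) x + pd 1 (fun y => gw ε 1 y * F y) x) -
        2 * ε / (sg x + ε) ^ 2 * F x := by
      intro x
      have hsg := Pool.Agent.Q257.AXI.sg_nonneg x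
      rw [pd_mul1 (hgd 0) hd, pd_mul1 (hgd 1) hd, ← gw_div hε x]
      unfold RR gw
      field_simp
      ring
    have hcont : Continuous fun x => 2 * ε / (sg x + ε) ^ 2 * F x := by
      refine Continuous.mul (continuous_const.div ((sm_sg.continuous.add continuous_const).pow 2) fun x => ?_) hF.continuous
      have := Pool.Agent.Q257.AXI.sg_nonneg x
      positivity
    have hI : Integrable fun x => 2 * ε / (sg x + ε) ^ 2 * F x :=
      hcont.integrable_of_hasCompactSupport hs.mul_left
    rw [← hεe]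
    simp_rw [e1]
    have i01 : Integrable fun x => pd 0 (fun y => gw ε 0 y * F y) x + pd 1 (fun y => gw ε 1 y * F y) x := (hZ 0).1.add (hZ 1).1
    rw [integral_sub i01 hI, integral_add (hZ 0).1 (hZ 1).1, (hZ 0).2, (hZ 1).2, scal hd0 hcont, ← integral_const_mul]
    rw [add_zero, zero_sub]
    congr 1
    refine integral_congr_ae (Eventually.of_forall fun w => ?_)
    simp only
    have e2 : sg (![d * w 0, d * w 1, w 2] : V) = d ^ 2 * (w 0 ^ 2 + w 1 ^ 2) := by
      unfold sg
      simp
      ring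
    rw [e2, hεe]
    field_simp
  have hlim : Tendsto (fun n : ℕ => ∫ x, RR F x / (sg x + (1 / ((n : ℝ) + 1)) ^ 2)) atTop (𝓝 (∫ x, RR F x / sg x)) := by
    refine tendsto_integral_of_dominated_convergence (fun x => ‖RR F x / sg x‖) (fun n => ?_) hint.norm (fun n => ?_) ?_
    · exact (hRc.measurable.div (sm_sg.continuous.measurable.add_const _)).aestronglyMeasurable
    · refine Eventually.of_forall fun x => ?_
      have h1 := Pool.Agent.Q257.AXI.sg_nonneg x
      have h2 : (0 : ℝ) < 1 / ((n : ℝ) + 1) := Nat.one_div_pos_of_nat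
      rw [norm_div, norm_div, Real.norm_of_nonneg h1, Real.norm_of_nonneg (by positivity : 0 ≤ sg x + (1 / ((n : ℝ) + 1)) ^ 2)]
      rcases h1.eq_or_lt with h3 | h3
      · have e : RR F x = 0 := by
          have a0 : x 0 = 0 := by unfold sg at h3; nlinarith [sq_nonneg (x 0), sq_nonneg (x 1)]
          have a1 : x 1 = 0 := by unfold sg at h3; nlinarith [sq_nonneg (x 0), sq_nonneg (x 1)]
          unfold RR
          rw [a0, a1]
          ring
        rw [e, norm_zero, zero_div, zero_div]
      · gcongr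
        linarith [sq_nonneg (1 / ((n : ℝ) + 1))]
    · refine Eventually.of_forall fun x => ?_
      have h1 := Pool.Agent.Q257.AXI.sg_nonneg x
      rcases h1.eq_or_lt with h3 | h3
      · have e : RR F x = 0 := by
          have a0 : x 0 = 0 := by unfold sg at h3; nlinarith [sq_nonneg (x 0), sq_nonneg (x 1)]
          have a1 : x 1 = 0 := by unfold sg at h3; nlinarith [sq_nonneg (x 0), sq_nonneg (x 1)]
          unfold RR
          rw [a0, a1]
          ring
        simp only [e, zero_div]
        exact tendsto_const_nhds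
      · have h4 : Tendsto (fun n : ℕ => sg x + (1 / ((n : ℝ) + 1)) ^ 2) atTop (𝓝 (sg x + 0 ^ 2)) :=
          tendsto_const_nhds.add ((tendsto_one_div_add_atTop_nhds_zero_nat).pow 2)
        rw [zero_pow two_ne_zero, add_zero] at h4
        exact tendsto_const_nhds.div h4 h3.ne'
  obtain ⟨B, hB⟩ := hF.continuous.bounded_above_of_compact_support hs
  have hB0 : 0 ≤ B := (norm_nonneg _).trans (hB 0)
  have hc0 : Continuous fun x : V => 2 / (x 0 ^ 2 + x 1 ^ 2 + 1) ^ 2 :=
    continuous_const.div (by fun_prop) fun x => by positivity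
  have hlim2 : Tendsto (fun n : ℕ => ∫ w : V, 2 / (w 0 ^ 2 + w 1 ^ 2 + 1) ^ 2 *
      F ![1 / ((n : ℝ) + 1) * w 0, 1 / ((n : ℝ) + 1) * w 1, w 2]) atTop
      (𝓝 (∫ w : V, 2 / (w 0 ^ 2 + w 1 ^ 2 + 1) ^ 2 * F ![0, 0, w 2])) := by
    have hdom : Integrable (fun w : V => ∏ i, (fun (i : Fin 3) (t : ℝ) =>
        if i = 2 then Set.indicator (Icc (-R) R) (fun _ => (2 * B : ℝ)) t else (1 + t ^ 2)⁻¹) i (w i)) := by
      rw [volume_pi]
      refine Integrable.fintype_prod (f := fun (i : Fin 3) (t : ℝ) =>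
        if i = 2 then Set.indicator (Icc (-R) R) (fun _ => (2 * B : ℝ)) t else (1 + t ^ 2)⁻¹) fun i => ?_
      by_cases hi : i = 2
      · simp only [hi, if_true]
        rw [integrable_indicator_iff measurableSet_Icc]
        exact integrableOn_const (by simp)
      · simp only [hi, if_false]
        exact integrable_inv_one_add_sq
    refine tendsto_integral_of_dominated_convergence _ (fun n => ?_) hdom (fun n => ?_) ?_
    · refine (hc0.mul (hF.continuous.comp ?_)).aestronglyMeasurable
      apply continuous_pi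
      intro i
      fin_cases i <;> simp <;> fun_prop
    · refine Eventually.of_forall fun w => ?_
      rw [Fin.prod_univ_three]
      have e0 : ((0 : Fin 3) = 2) = False := by simp
      have e1 : ((1 : Fin 3) = 2) = False := by simp
      simp only [e0, e1, if_false, if_true]
      rw [norm_mul, Real.norm_of_nonneg (by positivity)]
      by_cases hw : w 2 ∈ Icc (-R) R
      · rw [indicator_of_mem hw]
        have h1 := prof_le (w 0) (w 1)
        have h2 := hB ![1 / ((n : ℝ) + 1) * w 0, 1 / ((n : ℝ) + 1) * w 1, w 2]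
        calc _ ≤ 2 * ((1 + w 0 ^ 2)⁻¹ * (1 + w 1 ^ 2)⁻¹) * B := mul_le_mul h1 h2 (norm_nonneg _) (by positivity)
          _ = _ := by ring
      · rw [indicator_of_notMem hw, mul_zero]
        have h2 : F ![1 / ((n : ℝ) + 1) * w 0, 1 / ((n : ℝ) + 1) * w 1, w 2] = 0 := by
          by_contra hcon
          apply hw
          have h3 := hR (subset_tsupport _ hcon)
          rw [mem_closedBall, dist_zero_right] at h3
          have h4 := (norm_le_pi_norm _ (2 : Fin 3)).trans h3
          have h5 : ‖w 2‖ ≤ R := h4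
          rw [Real.norm_eq_abs] at h5
          exact abs_le.1 h5
        rw [h2, norm_zero, mul_zero]
    · refine Eventually.of_forall fun w => ?_
      apply Tendsto.const_mul
      refine (hF.continuous.tendsto _).comp ?_
      rw [tendsto_pi_nhds]
      have h0 := tendsto_one_div_add_atTop_nhds_zero_nat (𝕜 := ℝ)
      intro i
      fin_cases i
      · simpa using h0.mul_const (w 0)
      · simpa using h0.mul_const (w 1)
      · exact tendsto_const_nhds
  have h1 : ∫ x, RR F x / sg x = -∫ w : V, 2 / (w 0 ^ 2 + w 1 ^ 2 + 1) ^ 2 * F ![0, 0, w 2] := by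
    refine tendsto_nhds_unique hlim ?_
    refine (hlim2.neg).congr fun n => ?_
    rw [hreg _ Nat.one_div_pos_of_nat]
  rw [h1, neg_mul]
  congr 1
  have e1 : ∫ w : V, 2 / (w 0 ^ 2 + w 1 ^ 2 + 1) ^ 2 * F ![0, 0, w 2] =
      ∫ w : V, (fun p : ℝ × (Fin 2 → ℝ) => F ![0, 0, p.1] * wp p.2)
        (MeasurableEquiv.piFinSuccAbove (fun _ => ℝ) (2 : Fin 3) w) := by
    refine integral_congr_ae (Eventually.of_forall fun w => ?_)
    show 2 / (w 0 ^ 2 + w 1 ^ 2 + 1) ^ 2 * F ![0, 0, w 2] = F ![0, 0, w 2] * (2 / (w 0 ^ 2 + w 1 ^ 2 + 1) ^ 2)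
    ring
  have e2 := (volume_preserving_piFinSuccAbove (fun _ => ℝ) (2 : Fin 3)).integral_comp
    (MeasurableEquiv.piFinSuccAbove (fun _ => ℝ) (2 : Fin 3)).measurableEmbedding
    (fun p : ℝ × (Fin 2 → ℝ) => F ![0, 0, p.1] * wp p.2)
  have e3 : ∫ p : ℝ × (Fin 2 → ℝ), F ![0, 0, p.1] * wp p.2 = (∫ z : ℝ, F ![0, 0, z]) * ∫ w, wp w := by
    rw [Measure.volume_eq_prod]
    exact integral_prod_mul (fun z : ℝ => F ![0, 0, z]) wp
  rw [mul_comm]
  exact e1.trans (e2.trans e3)

end Pool.Agent.D0H65.OV
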