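import Pool.Agent.D0H65.OV.Ring

/-! Project OV (helper28), package C2 (helper65): the sixth power of the kernel. -/

set_option autoImplicit false

open MeasureTheory Set Metric Filter Topology
open scoped ContDiff ENNReal
open H459R3.NS Pool.Agent.W268.NS Pool.Agent.Q67.VD

namespace Pool.Agent.D0H65.OV

open Pool.Agent.Q85.CC Pool.Agent.Q85.CL Pool.Agent.TH305.AX Pool.Agent.Q67.AXI
open Pool.Agent.D0H28.OV

/-- The one-dimensional singularity. -/
noncomputable def sn (b r : ℝ) : ℝ≥0∞ := ENNReal.ofReal (|r - b| ^ (-(3 / 4) : ℝ))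

theorem sn_meas (b : ℝ) : Measurable (sn b) := by
  unfold sn
  exact (((measurable_id.sub_const b).abs).pow_const _).ennreal_ofReal

theorem od : ∃ C : ℝ, 0 < C ∧ ∀ c s b : ℝ, 0 < s →
    ∫⁻ r in Ioo (c - s) (c + s), sn b r ≤ ENNReal.ofReal (C * s ^ (1 / 4 : ℝ)) := by
  obtain ⟨J, hJ⟩ : ∃ J : ℝ, J = ∫ φ in (-1 : ℝ)..1, |φ| ^ (-(3 / 4) : ℝ) := ⟨_, rfl⟩
  have hJ0 : 0 ≤ J := by
    rw [hJ]
    exact intervalIntegral.integral_nonneg (by norm_num) fun φ _ => Real.rpow_nonneg (abs_nonneg _) _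
  refine ⟨J + 2, by positivity, fun c s b hs => ?_⟩
  have h1 : ∀ r, sn b r ≤ (Ioc (b - s) (b + s)).indicator (sn b) r + ENNReal.ofReal (s ^ (-(3 / 4) : ℝ)) := by
    intro r
    by_cases hr : r ∈ Ioc (b - s) (b + s)
    · rw [indicator_of_mem hr]
      exact le_self_add
    · rw [indicator_of_notMem hr, zero_add]
      unfold sn
      apply ENNReal.ofReal_le_ofReal
      apply Real.rpow_le_rpow_of_nonpos hs _ (by norm_num)
      rw [mem_Ioc, not_and_or, not_lt, not_le] at hr
      rcases hr with hr | hr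
      · rw [abs_of_nonpos (by linarith)]
        linarith
      · rw [abs_of_nonneg (by linarith)]
        linarith
  have h2 : ∫⁻ r in Ioc (b - s) (b + s), sn b r = ENNReal.ofReal (J * s ^ (1 / 4 : ℝ)) := by
    have hI0 : IntervalIntegrable (fun φ : ℝ => |φ| ^ (-(3 / 4) : ℝ)) volume (-s) s :=
      (loc34.integrableOn_isCompact isCompact_uIcc).intervalIntegrable
    have hIs : IntervalIntegrable (fun θ : ℝ => |θ - b| ^ (-(3 / 4) : ℝ)) volume (b - s) (b + s) := by
      have := hI0.comp_sub_right b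
      have e3 : -s + b = b - s := by ring
      have e4 : s + b = b + s := by ring
      rw [e3, e4] at this
      exact this
    have hIo := (intervalIntegrable_iff_integrableOn_Ioc_of_le (by linarith)).1 hIs
    have h3 := ofReal_integral_eq_lintegral_ofReal hIo
      (Eventually.of_forall fun x => Real.rpow_nonneg (abs_nonneg _) _)
    unfold sn
    rw [← h3, ← intervalIntegral.integral_of_le (by linarith)]
    congr 1
    have e1 := intervalIntegral.integral_comp_sub_right (a := b - s) (b := b + s)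
      (fun φ : ℝ => |φ| ^ (-(3 / 4) : ℝ)) b
    rw [e1]
    have e2 : b - s - b = -s := by ring
    have e3 : b + s - b = s := by ring
    rw [e2, e3]
    have e4 := intervalIntegral.integral_comp_mul_left (a := -1) (b := 1) (fun φ : ℝ => |φ| ^ (-(3 / 4) : ℝ)) hs.ne'
    rw [mul_neg, mul_one, smul_eq_mul] at e4
    have e5 : ∫ x in (-1 : ℝ)..1, |s * x| ^ (-(3 / 4) : ℝ) = s ^ (-(3 / 4) : ℝ) * J := by
      rw [hJ, ← intervalIntegral.integral_const_mul]
      apply intervalIntegral.integral_congr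
      intro x _
      simp only
      rw [abs_mul, abs_of_pos hs, Real.mul_rpow hs.le (abs_nonneg _)]
    rw [e5] at e4
    have e6 : ∫ x in (-s)..s, |x| ^ (-(3 / 4) : ℝ) = s * (s ^ (-(3 / 4) : ℝ) * J) := by
      rw [e4, ← mul_assoc, mul_inv_cancel₀ hs.ne', one_mul]
    rw [e6, ← mul_assoc, ← Real.rpow_one_add' hs.le (by norm_num)]
    norm_num
    ring
  calc ∫⁻ r in Ioo (c - s) (c + s), sn b r ≤
        ∫⁻ r in Ioo (c - s) (c + s), ((Ioc (b - s) (b + s)).indicator (sn b) r + ENNReal.ofReal (s ^ (-(3 / 4) : ℝ))) :=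
        lintegral_mono h1
    _ = (∫⁻ r in Ioo (c - s) (c + s), (Ioc (b - s) (b + s)).indicator (sn b) r) +
        ∫⁻ r in Ioo (c - s) (c + s), ENNReal.ofReal (s ^ (-(3 / 4) : ℝ)) :=
        lintegral_add_right _ measurable_const
    _ ≤ (∫⁻ r, (Ioc (b - s) (b + s)).indicator (sn b) r) + ENNReal.ofReal (s ^ (-(3 / 4) : ℝ)) * ENNReal.ofReal (2 * s) := by
        refine add_le_add (setLIntegral_le_lintegral _ _) (le_of_eq ?_)
        rw [setLIntegral_const, Real.volume_Ioo]
        congr 2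
        ring
    _ = ENNReal.ofReal (J * s ^ (1 / 4 : ℝ)) + ENNReal.ofReal (2 * s ^ (1 / 4 : ℝ)) := by
        rw [lintegral_indicator measurableSet_Ioc, h2, ← ENNReal.ofReal_mul (by positivity)]
        congr 2
        have : s ^ (-(3 / 4) : ℝ) * (2 * s) = 2 * (s * s ^ (-(3 / 4) : ℝ)) := by ring
        rw [this, ← Real.rpow_one_add' hs.le (by norm_num)]
        norm_num
    _ = ENNReal.ofReal ((J + 2) * s ^ (1 / 4 : ℝ)) := by
        rw [← ENNReal.ofReal_add (by positivity) (by positivity)]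
        congr 1
        ring

/-- The planar factor. -/
noncomputable def pl (s b : ℝ) (p : ℝ × ℝ) : ℝ≥0∞ :=
  if p.1 ^ 2 + p.2 ^ 2 < s ^ 2 then sn b (√(p.1 ^ 2 + p.2 ^ 2)) else 0

theorem pl_meas (s b : ℝ) : Measurable (pl s b) := by
  unfold pl
  refine Measurable.ite ?_ ((sn_meas b).comp (by fun_prop)) measurable_const
  exact measurableSet_lt (by fun_prop) measurable_const

theorem td : ∃ C : ℝ, 0 < C ∧ ∀ s b : ℝ, 0 < s →
    ∫⁻ p : ℝ × ℝ, pl s b p ≤ ENNReal.ofReal (C * (s * s ^ (1 / 4 : ℝ))) := by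
  obtain ⟨C, hC, hod⟩ := od
  have hp := Real.pi_pos
  refine ⟨2 * Real.pi * C, by positivity, fun s b hs => ?_⟩
  rw [← lintegral_comp_polarCoord_symm]
  have h1 : ∀ p ∈ polarCoord.target, ENNReal.ofReal p.1 • pl s b (polarCoord.symm p) ≤
      (Ioo (0 - s) (0 + s)).indicator (fun r => ENNReal.ofReal s * sn b r) p.1 * 1 := by
    intro p hp'
    rw [polarCoord_target] at hp'
    have hp1 : 0 < p.1 := hp'.1
    have e1 : (polarCoord.symm p).1 ^ 2 + (polarCoord.symm p).2 ^ 2 = p.1 ^ 2 := by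
      rw [polarCoord_symm_apply]
      have := Real.sin_sq_add_cos_sq p.2
      simp only
      have h : (p.1 * Real.cos p.2) ^ 2 + (p.1 * Real.sin p.2) ^ 2 =
        p.1 ^ 2 * (Real.sin p.2 ^ 2 + Real.cos p.2 ^ 2) := by ring
      rw [h, this, mul_one]
    unfold pl
    rw [e1, Real.sqrt_sq hp1.le, smul_eq_mul, mul_one]
    split_ifs with h
    · have h2 : p.1 < s := lt_of_pow_lt_pow_left₀ 2 hs.le h
      rw [indicator_of_mem (show p.1 ∈ Ioo (0 - s) (0 + s) from ⟨by linarith, by linarith⟩)]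
      gcongr
    · rw [mul_zero]
      exact zero_le
  refine (setLIntegral_mono_ae' polarCoord.open_target.measurableSet (Eventually.of_forall fun p hp => h1 p hp)).trans ?_
  rw [polarCoord_target, Measure.volume_eq_prod, ← Measure.prod_restrict]
  rw [lintegral_prod_mul (((sn_meas b).const_mul _).indicator measurableSet_Ioo).aemeasurable aemeasurable_const]
  have h2 : ∫⁻ r in Ioi (0 : ℝ), (Ioo (0 - s) (0 + s)).indicator (fun r => ENNReal.ofReal s * sn b r) r ≤
      ENNReal.ofReal s * ENNReal.ofReal (C * s ^ (1 / 4 : ℝ)) := by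
    refine (setLIntegral_le_lintegral _ _).trans ?_
    rw [lintegral_indicator measurableSet_Ioo, lintegral_const_mul _ (sn_meas b)]
    gcongr
    exact hod 0 s b hs
  have h3 : ∫⁻ _θ in Ioo (-Real.pi) Real.pi, (1 : ℝ≥0∞) = ENNReal.ofReal (2 * Real.pi) := by
    rw [setLIntegral_const, Real.volume_Ioo, one_mul]
    congr 1
    ring
  rw [h3]
  refine (mul_le_mul_left h2 _).trans (le_of_eq ?_)
  rw [← ENNReal.ofReal_mul hs.le, ← ENNReal.ofReal_mul (by positivity)]
  congr 1
  ring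

/-- The third factor. -/
noncomputable def ax3 (c s d z : ℝ) : ℝ≥0∞ := (Ioo (c - s) (c + s)).indicator (sn d) z

theorem ker6L : ∃ C : ℝ, 0 < C ∧ ∀ c s b d : ℝ, 0 < s →
    ∫⁻ x in Co c s s, ENNReal.ofReal (|√(sg x) - b| ^ (-(3 / 4) : ℝ) * |x 2 - d| ^ (-(3 / 4) : ℝ))
      ≤ ENNReal.ofReal (C * s ^ (3 / 2 : ℝ)) := by
  obtain ⟨C, hC, hod⟩ := od
  obtain ⟨C', hC', htd⟩ := td
  refine ⟨C * C', by positivity, fun c s b d hs => ?_⟩
  have hCo : MeasurableSet (Co c s s) := by
    unfold Co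
    have hm : Measurable (fun x : V => sg x) := by
      unfold sg
      fun_prop
    have h2 : Measurable (fun x : V => x 2) := measurable_pi_apply (2 : Fin 3)
    have h3 : Measurable (fun x : V => |x 2 - c|) := (h2.sub_const c).abs
    exact (measurableSet_lt hm measurable_const).inter (measurableSet_lt h3 measurable_const)
  rw [← lintegral_indicator hCo]
  have e1 : ∀ x : V, (Co c s s).indicator
      (fun x => ENNReal.ofReal (|√(sg x) - b| ^ (-(3 / 4) : ℝ) * |x 2 - d| ^ (-(3 / 4) : ℝ))) x =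
      (fun p : ℝ × (Fin 2 → ℝ) => ax3 c s d p.1 * pl s b (MeasurableEquiv.finTwoArrow p.2))
        (MeasurableEquiv.piFinSuccAbove (fun _ => ℝ) (2 : Fin 3) x) := by
    intro x
    show _ = ax3 c s d (x 2) * pl s b (x 0, x 1)
    unfold ax3 pl
    have hsg : sg x = x 0 ^ 2 + x 1 ^ 2 := rfl
    by_cases h1 : x 0 ^ 2 + x 1 ^ 2 < s ^ 2
    · by_cases h2 : |x 2 - c| < s
      · have h3 : x 2 ∈ Ioo (c - s) (c + s) := by
          rw [abs_lt] at h2
          exact ⟨by linarith [h2.1], by linarith [h2.2]⟩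
        rw [indicator_of_mem (show x ∈ Co c s s from ⟨h1, h2⟩), indicator_of_mem h3, if_pos h1]
        unfold sn
        rw [← ENNReal.ofReal_mul (Real.rpow_nonneg (abs_nonneg _) _), hsg, mul_comm]
      · have h3 : x 2 ∉ Ioo (c - s) (c + s) := by
          intro h4
          apply h2
          rw [abs_lt]
          exact ⟨by linarith [h4.1], by linarith [h4.2]⟩
        rw [indicator_of_notMem (show x ∉ Co c s s from fun h => h2 h.2), indicator_of_notMem h3, zero_mul]
    · rw [indicator_of_notMem (show x ∉ Co c s s from fun h => h1 h.1), if_neg h1, mul_zero]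
  have hAx : Measurable (ax3 c s d) := (sn_meas d).indicator measurableSet_Ioo
  have hPl : Measurable (fun w : Fin 2 → ℝ => pl s b (MeasurableEquiv.finTwoArrow w)) :=
    (pl_meas s b).comp MeasurableEquiv.finTwoArrow.measurable
  rw [lintegral_congr e1, (volume_preserving_piFinSuccAbove (fun _ => ℝ) (2 : Fin 3)).lintegral_comp
    (f := fun p : ℝ × (Fin 2 → ℝ) => ax3 c s d p.1 * pl s b (MeasurableEquiv.finTwoArrow p.2))
    ((hAx.comp measurable_fst).mul (hPl.comp measurable_snd)), Measure.volume_eq_prod]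
  rw [lintegral_prod_mul (f := ax3 c s d) (g := fun w : Fin 2 → ℝ => pl s b (MeasurableEquiv.finTwoArrow w))
    hAx.aemeasurable hPl.aemeasurable, (volume_preserving_finTwoArrow ℝ).lintegral_comp (pl_meas s b)]
  have h1 : ∫⁻ z, ax3 c s d z ≤ ENNReal.ofReal (C * s ^ (1 / 4 : ℝ)) := by
    unfold ax3
    rw [lintegral_indicator measurableSet_Ioo]
    exact hod c s d hs
  refine (mul_le_mul' h1 (htd s b hs)).trans (le_of_eq ?_)
  rw [← ENNReal.ofReal_mul (by positivity)]
  congr 1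
  have : s ^ (3 / 2 : ℝ) = s ^ (1 / 4 : ℝ) * (s * s ^ (1 / 4 : ℝ)) := by
    rw [← Real.rpow_one_add' hs.le (by norm_num), ← Real.rpow_add hs]
    norm_num
  rw [this]
  ring

theorem ker6_meas (b d : ℝ) :
    Measurable (fun x : V => |√(sg x) - b| ^ (-(3 / 4) : ℝ) * |x 2 - d| ^ (-(3 / 4) : ℝ)) := by
  have hm : Measurable (fun x : V => sg x) := by
    unfold sg
    fun_prop
  have h2 : Measurable (fun x : V => x 2) := measurable_pi_apply (2 : Fin 3)
  have h3 : Measurable (fun x : V => |x 2 - d| ^ (-(3 / 4) : ℝ)) := ((h2.sub_const d).abs).pow_const _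
  have h4 : Measurable (fun x : V => |√(sg x) - b| ^ (-(3 / 4) : ℝ)) := (hm.sqrt.sub_const b).abs.pow_const _
  exact h4.mul h3

theorem ker6 : StmKer6 := by
  obtain ⟨C, hC, h⟩ := ker6L
  refine ⟨C, hC, fun c s b d hs => ?_⟩
  have h1 := h c s b d hs
  have hnn : ∀ x : V, 0 ≤ |√(sg x) - b| ^ (-(3 / 4) : ℝ) * |x 2 - d| ^ (-(3 / 4) : ℝ) := fun x => by positivity
  have hI : IntegrableOn (fun x : V => |√(sg x) - b| ^ (-(3 / 4) : ℝ) * |x 2 - d| ^ (-(3 / 4) : ℝ)) (Co c s s) := by
    refine ⟨(ker6_meas b d).aestronglyMeasurable, ?_⟩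
    rw [hasFiniteIntegral_iff_ofReal (Eventually.of_forall hnn)]
    exact h1.trans_lt ENNReal.ofReal_lt_top
  refine ⟨hI, ?_⟩
  rw [← ENNReal.ofReal_le_ofReal_iff (by positivity)]
  rw [ofReal_integral_eq_lintegral_ofReal hI (Eventually.of_forall hnn)]
  exact h1

end Pool.Agent.D0H65.OV
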