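import Pool.Agent.D0H28.OV.Defs
import Pool.Agent.W918.MD.Ker
import Pool.Agent.Q182.AXI.T1P

/-! Project OV (helper28), package B (helper65): the Newton potential. -/

set_option autoImplicit false

open MeasureTheory Set Metric Filter Topology
open scoped ContDiff
open H459R3.NS Pool.Agent.W268.NS Pool.Agent.Q67.VD

namespace Pool.Agent.D0H65.OV

open Pool.Agent.D0H28.OV
open W918.MD (qq qq_nonneg le_qq abs_le_sqrt_qq norm_le_sqrt_qq qq_le hasFDerivAt_qq smooth_qq pd_of
  pd_smooth smooth_diff)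
open Pool.Agent.Q182.AXI.T1P (int_pd)

/-- Powers of the regularised distance. -/
noncomputable def gr (r e : ℝ) (a z : V) : ℝ := (qq (z - a) + e) ^ r

theorem gr_base {e : ℝ} (he : 0 < e) (a z : V) : 0 < qq (z - a) + e := by
  have := qq_nonneg (z - a)
  linarith

theorem gr_pos {e : ℝ} (he : 0 < e) (r : ℝ) (a z : V) : 0 < gr r e a z := Real.rpow_pos_of_pos (gr_base he a z) r

theorem gr_smooth {e : ℝ} (he : 0 < e) (r : ℝ) (a : V) : ContDiff ℝ ∞ (gr r e a) := by
  unfold gr
  apply ContDiff.rpow_const_of_ne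
  · exact (smooth_qq.comp (contDiff_id.sub contDiff_const)).add contDiff_const
  · intro z
    exact (gr_base he a z).ne'

theorem pd_gr {e : ℝ} (he : 0 < e) (r : ℝ) (a z : V) (j : Fin 3) :
    pd j (gr r e a) z = 2 * r * ((z j - a j) * gr (r - 1) e a z) := by
  have h1 : HasFDerivAt (fun z => qq (z - a) + e)
      (∑ i, (2 * (z - a) i) • (ContinuousLinearMap.proj i : V →L[ℝ] ℝ)) z := by
    have := ((hasFDerivAt_qq (z - a)).comp z ((hasFDerivAt_id z).sub_const a)).add_const e
    simpa [Function.comp_def] using this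
  have h2 := (Real.hasDerivAt_rpow_const (p := r) (Or.inl (gr_base he a z).ne')).comp_hasFDerivAt z h1
  have h3 : gr r e a = (fun x : ℝ => x ^ r) ∘ (fun z => qq (z - a) + e) := rfl
  rw [h3, pd_of h2 j]
  simp only [ContinuousLinearMap.smul_apply, ContinuousLinearMap.sum_apply,
    ContinuousLinearMap.proj_apply, smul_eq_mul, Pi.single_apply, Pi.sub_apply, mul_ite, mul_one, mul_zero,
    Finset.sum_ite_eq', Finset.mem_univ, if_true, Finset.sum_ite_eq]
  unfold gr
  ring

theorem lap_gr {e : ℝ} (he : 0 < e) (a z : V) :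
    lap (gr (-(1 / 2)) e a) z = -(3 * e * gr (-(5 / 2)) e a z) := by
  unfold lap
  have h : ∀ j : Fin 3, pd j (pd j (gr (-(1 / 2)) e a)) z =
      -(gr (-(3 / 2)) e a z) + 3 * ((z j - a j) ^ 2 * gr (-(5 / 2)) e a z) := by
    intro j
    have h1 : pd j (gr (-(1 / 2)) e a) = fun z => (a j - z j) * gr (-(3 / 2)) e a z := by
      funext y
      rw [pd_gr he]
      norm_num
      ring
    have hd : DifferentiableAt ℝ (fun z : V => a j - z j) z := by fun_prop
    have h2 : pd j (fun z : V => a j - z j) z = -1 := by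
      have h3 : HasFDerivAt (fun z : V => a j - z j) (-(ContinuousLinearMap.proj j : V →L[ℝ] ℝ)) z :=
        (hasFDerivAt_apply (𝕜 := ℝ) j z).const_sub (a j)
      rw [pd_of h3 j]
      simp
    rw [h1, W918.MD.pd_mul (f := fun z : V => a j - z j) (g := gr (-(3 / 2)) e a) hd (smooth_diff (gr_smooth he _ a) z), h2,
      pd_gr he]
    norm_num
    ring
  simp only [h]
  rw [Finset.sum_add_distrib, ← Finset.mul_sum, ← Finset.sum_mul]
  have h5 : ∑ i : Fin 3, (z i - a i) ^ 2 = (qq (z - a) + e) - e := by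
    unfold qq
    simp
  have h6 : gr (-(3 / 2)) e a z = (qq (z - a) + e) * gr (-(5 / 2)) e a z := by
    unfold gr
    rw [← Real.rpow_one_add' (gr_base he a z).le (by norm_num)]
    norm_num
  rw [h5, h6, Finset.sum_const, Finset.card_univ, Fintype.card_fin, nsmul_eq_mul]
  push_cast
  ring

/-- Green's formula. -/
theorem green {g Φ : V → ℝ} (hg : ContDiff ℝ ∞ g) (hΦ : ContDiff ℝ ∞ Φ) (hc : HasCompactSupport Φ) :
    ∫ y, g y * lap Φ y = ∫ y, lap g y * Φ y := by
  have hcp : ∀ i : Fin 3, HasCompactSupport (pd i Φ) := fun i => Pool.Agent.Q149.AXI.cs_pd hc i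
  have hcpp : ∀ i : Fin 3, HasCompactSupport (pd i (pd i Φ)) := fun i => Pool.Agent.Q149.AXI.cs_pd (hcp i) i
  have key : ∀ i : Fin 3, ∫ y, g y * pd i (pd i Φ) y = ∫ y, pd i (pd i g) y * Φ y := by
    intro i
    have a1 : ContDiff ℝ ∞ (fun y => g y * pd i Φ y) := hg.mul (pd_smooth hΦ i)
    have a2 : ContDiff ℝ ∞ (fun y => pd i g y * Φ y) := (pd_smooth hg i).mul hΦ
    have b1 := int_pd a1 (hcp i).mul_left i
    have b2 := int_pd a2 hc.mul_left i
    have e1 : ∀ y, pd i (fun y => g y * pd i Φ y) y = pd i g y * pd i Φ y + g y * pd i (pd i Φ) y := fun y =>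
      W918.MD.pd_mul (smooth_diff hg y) (smooth_diff (pd_smooth hΦ i) y) i
    have e2 : ∀ y, pd i (fun y => pd i g y * Φ y) y = pd i (pd i g) y * Φ y + pd i g y * pd i Φ y := fun y =>
      W918.MD.pd_mul (smooth_diff (pd_smooth hg i) y) (smooth_diff hΦ y) i
    simp only [e1] at b1
    simp only [e2] at b2
    have i1 : Integrable (fun y => pd i g y * pd i Φ y) :=
      ((pd_smooth hg i).continuous.mul (pd_smooth hΦ i).continuous).integrable_of_hasCompactSupport (hcp i).mul_left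
    have i2 : Integrable (fun y => g y * pd i (pd i Φ) y) :=
      (hg.continuous.mul (pd_smooth (pd_smooth hΦ i) i).continuous).integrable_of_hasCompactSupport (hcpp i).mul_left
    have i3 : Integrable (fun y => pd i (pd i g) y * Φ y) :=
      ((pd_smooth (pd_smooth hg i) i).continuous.mul hΦ.continuous).integrable_of_hasCompactSupport hc.mul_left
    rw [integral_add i1 i2] at b1
    rw [integral_add i3 i1] at b2
    linarith
  unfold lap
  simp only [Finset.mul_sum, Finset.sum_mul]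
  rw [integral_finsetSum, integral_finsetSum]
  · exact Finset.sum_congr rfl fun i _ => key i
  · intro i _
    exact ((pd_smooth (pd_smooth hg i) i).continuous.mul hΦ.continuous).integrable_of_hasCompactSupport hc.mul_left
  · intro i _
    exact (hg.continuous.mul (pd_smooth (pd_smooth hΦ i) i).continuous).integrable_of_hasCompactSupport (hcpp i).mul_left

/-- The profile of the approximate identity. -/
noncomputable def pf (w : V) : ℝ := 3 * (qq w + 1) ^ (-(5 / 2) : ℝ)

theorem pf_pos (w : V) : 0 < pf w := by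
  unfold pf
  have := qq_nonneg w
  have : 0 < qq w + 1 := by linarith
  positivity

theorem pf_cont : Continuous pf := by
  unfold pf
  refine continuous_const.mul ((smooth_qq.continuous.add continuous_const).rpow_const fun x => Or.inl ?_)
  have h := qq_nonneg x
  exact (show (0 : ℝ) < qq x + 1 by linarith).ne'

theorem pf_int : Integrable pf := by
  have h1 : Integrable (fun x : V => (1 + ‖x‖) ^ (-(5 : ℝ))) := by
    apply integrable_one_add_norm
    rw [Module.finrank_pi]
    simp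
    norm_num
  refine (h1.const_mul (3 * 2 ^ (5 / 2 : ℝ))).mono' pf_cont.aestronglyMeasurable (Eventually.of_forall fun w => ?_)
  rw [Real.norm_of_nonneg (pf_pos w).le]
  unfold pf
  have hq := qq_nonneg w
  have h2 : ‖w‖ ^ 2 ≤ qq w := by
    have := norm_le_sqrt_qq w
    calc ‖w‖ ^ 2 ≤ √(qq w) ^ 2 := pow_le_pow_left₀ (norm_nonneg _) this 2
      _ = qq w := Real.sq_sqrt hq
  have h3 : (1 + ‖w‖) ^ 2 ≤ 2 * (qq w + 1) := by nlinarith [sq_nonneg (1 - ‖w‖)]
  have h4 : (2 * (qq w + 1)) ^ (-(5 / 2) : ℝ) ≤ ((1 + ‖w‖) ^ 2) ^ (-(5 / 2) : ℝ) :=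
    Real.rpow_le_rpow_of_nonpos (by positivity) h3 (by norm_num)
  have h5 : ((1 + ‖w‖) ^ 2) ^ (-(5 / 2) : ℝ) = (1 + ‖w‖) ^ (-(5 : ℝ)) := by
    rw [← Real.rpow_natCast, ← Real.rpow_mul (by positivity)]
    norm_num
  have h6 : (2 * (qq w + 1)) ^ (-(5 / 2) : ℝ) = 2 ^ (-(5 / 2) : ℝ) * (qq w + 1) ^ (-(5 / 2) : ℝ) :=
    Real.mul_rpow (by norm_num) (by positivity)
  rw [h5, h6] at h4
  have h7 : (2 : ℝ) ^ (5 / 2 : ℝ) * 2 ^ (-(5 / 2) : ℝ) = 1 := by
    rw [← Real.rpow_add (by norm_num)]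
    norm_num
  have h8 := mul_le_mul_of_nonneg_left h4 (show (0 : ℝ) ≤ 2 ^ (5 / 2 : ℝ) by positivity)
  rw [← mul_assoc, h7, one_mul] at h8
  linarith

theorem pf_integral_pos : 0 < ∫ w, pf w := by
  rw [integral_pos_iff_support_of_nonneg (fun w => (pf_pos w).le) pf_int]
  have : Function.support pf = univ := by
    ext w
    simp [(pf_pos w).ne']
  rw [this]
  exact Measure.measure_univ_pos.2 (NeZero.ne _)

theorem qq_smul (c : ℝ) (w : V) : qq (c • w) = c ^ 2 * qq w := by
  unfold qq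
  rw [Finset.mul_sum]
  refine Finset.sum_congr rfl fun i _ => ?_
  simp only [Pi.smul_apply, smul_eq_mul]
  ring

/-- The change of variables. -/
theorem subst {d : ℝ} (hd : 0 < d) (Φ : V → ℝ) (x : V) :
    ∫ y, 3 * d ^ 2 * gr (-(5 / 2)) (d ^ 2) x y * Φ y = ∫ w, pf w * Φ (x + d • w) := by
  have h1 : ∫ y, 3 * d ^ 2 * gr (-(5 / 2)) (d ^ 2) x y * Φ y =
      ∫ z, 3 * d ^ 2 * (qq z + d ^ 2) ^ (-(5 / 2) : ℝ) * Φ (x + z) := by
    rw [← integral_add_left_eq_self (μ := (volume : Measure V)) _ x]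
    refine integral_congr_ae (Eventually.of_forall fun z => ?_)
    simp only [gr, add_sub_cancel_left]
  have h2 := Measure.integral_comp_smul (volume : Measure V)
    (fun z => 3 * d ^ 2 * (qq z + d ^ 2) ^ (-(5 / 2) : ℝ) * Φ (x + z)) d
  rw [h1]
  have h3 : Module.finrank ℝ V = 3 := by rw [Module.finrank_pi]; simp
  rw [h3] at h2
  have h4 : |(d ^ 3)⁻¹| = (d ^ 3)⁻¹ := abs_of_pos (by positivity)
  rw [h4, smul_eq_mul] at h2
  have h5 : ∫ z, 3 * d ^ 2 * (qq z + d ^ 2) ^ (-(5 / 2) : ℝ) * Φ (x + z) =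
      d ^ 3 * ∫ w, 3 * d ^ 2 * (qq (d • w) + d ^ 2) ^ (-(5 / 2) : ℝ) * Φ (x + d • w) := by
    rw [h2, ← mul_assoc, mul_inv_cancel₀ (by positivity), one_mul]
  rw [h5, ← integral_const_mul]
  refine integral_congr_ae (Eventually.of_forall fun w => ?_)
  simp only
  rw [qq_smul]
  have hq := qq_nonneg w
  have e1 : d ^ 2 * qq w + d ^ 2 = d ^ 2 * (qq w + 1) := by ring
  rw [e1, Real.mul_rpow (by positivity) (by positivity)]
  have e2 : (d ^ 2) ^ (-(5 / 2) : ℝ) = (d ^ 5)⁻¹ := by
    rw [← Real.rpow_natCast, ← Real.rpow_mul hd.le, ← Real.rpow_natCast, ← Real.rpow_neg hd.le]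
    norm_num
  rw [e2]
  unfold pf
  field_simp

theorem inv_int {g : V → ℝ} (hg : Continuous g) (hc : HasCompactSupport g) (x : V) :
    Integrable (fun y => |g y| / ‖x - y‖) := by
  have h1 : LocallyIntegrable (fun z : V => ‖z‖⁻¹) := by
    have h3 : Module.finrank ℝ V = 3 := by rw [Module.finrank_pi]; simp
    refine locallyIntegrable_of_norm_le_rpow (μ := (volume : Measure V)) (C := 1) (α := 1) (by rw [h3]; norm_num)
      (by rw [h3]; norm_num) (Eventually.of_forall fun z => ?_)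
      (continuous_norm.measurable.inv).aestronglyMeasurable
    rw [norm_inv, norm_norm, one_mul, Real.rpow_neg_one]
  have h := HasCompactSupport.convolutionExists_left (ContinuousLinearMap.mul ℝ ℝ)
    (μ := (volume : Measure V)) (f := fun y => |g y|) (g := fun z : V => ‖z‖⁻¹)
    (hc.comp_left (g := fun t : ℝ => |t|) abs_zero) hg.abs h1 x
  refine Integrable.congr h (Eventually.of_forall fun y => ?_)
  show |g y| * ‖x - y‖⁻¹ = |g y| / ‖x - y‖
  rw [div_eq_mul_inv]

theorem lap_smooth {Φ : V → ℝ} (hΦ : ContDiff ℝ ∞ Φ) : ContDiff ℝ ∞ (lap Φ) := by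
  unfold lap
  exact ContDiff.sum fun i _ => pd_smooth (pd_smooth hΦ i) i

theorem lap_cs {Φ : V → ℝ} (hc : HasCompactSupport Φ) : HasCompactSupport (lap Φ) := by
  refine HasCompactSupport.intro hc.isCompact fun x hx => ?_
  unfold lap
  refine Finset.sum_eq_zero fun i _ => ?_
  refine Pool.Agent.Q149.AXI.pd_off (fun h => hx ?_) i
  by_contra hcon
  have : pd i Φ =ᶠ[𝓝 x] fun _ => 0 := by
    filter_upwards [(isClosed_tsupport Φ).isOpen_compl.mem_nhds hcon] with y hy
    exact Pool.Agent.Q149.AXI.pd_off hy i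
  exact (notMem_tsupport_iff_eventuallyEq.2 this) h

theorem nwt : StmNwt := by
  have hc0 := pf_integral_pos
  refine ⟨(∫ w, pf w)⁻¹, by positivity, fun Φ hΦ hc x => ?_⟩
  have hI := inv_int (lap_smooth hΦ).continuous (lap_cs hc) x
  refine ⟨hI, ?_⟩
  have key : ∀ n : ℕ, |∫ w, pf w * Φ (x + (1 / ((n : ℝ) + 1)) • w)| ≤ ∫ y, |lap Φ y| / ‖x - y‖ := by
    intro n
    have hd : 0 < 1 / ((n : ℝ) + 1) := by positivity
    generalize 1 / ((n : ℝ) + 1) = d at hd
    have hd2 : 0 < d ^ 2 := by positivity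
    rw [← subst hd Φ x]
    have h1 := green (gr_smooth hd2 (-(1 / 2)) x) hΦ hc
    have h2 : ∫ y, 3 * d ^ 2 * gr (-(5 / 2)) (d ^ 2) x y * Φ y = -∫ y, gr (-(1 / 2)) (d ^ 2) x y * lap Φ y := by
      rw [h1, ← integral_neg]
      refine integral_congr_ae (Eventually.of_forall fun y => ?_)
      simp only
      rw [lap_gr hd2]
      ring
    rw [h2, abs_neg]
    refine abs_integral_le_integral_abs.trans ?_
    have hiL : Integrable (fun y => |gr (-(1 / 2)) (d ^ 2) x y * lap Φ y|) :=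
      (((gr_smooth hd2 (-(1 / 2)) x).continuous.mul
        (lap_smooth hΦ).continuous).integrable_of_hasCompactSupport (lap_cs hc).mul_left).abs
    refine integral_mono_ae hiL hI ?_
    have hne : ∀ᵐ y : V, y ≠ x := by
      rw [ae_iff]
      simp
    filter_upwards [hne] with y hy
    rw [abs_mul, abs_of_pos (gr_pos hd2 _ _ _), mul_comm, div_eq_mul_inv]
    refine mul_le_mul_of_nonneg_left ?_ (abs_nonneg _)
    have hn : 0 < ‖x - y‖ := norm_pos_iff.2 (sub_ne_zero.2 (Ne.symm hy))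
    unfold gr
    have hq := norm_le_sqrt_qq (y - x)
    rw [← norm_neg, neg_sub] at hq
    have h3 : ‖x - y‖ ^ 2 ≤ qq (y - x) + d ^ 2 := by
      calc ‖x - y‖ ^ 2 ≤ √(qq (y - x)) ^ 2 := pow_le_pow_left₀ (norm_nonneg _) hq 2
        _ = qq (y - x) := Real.sq_sqrt (qq_nonneg _)
        _ ≤ _ := by linarith
    have h4 : (qq (y - x) + d ^ 2) ^ (-(1 / 2) : ℝ) ≤ (‖x - y‖ ^ 2) ^ (-(1 / 2) : ℝ) :=
      Real.rpow_le_rpow_of_nonpos (by positivity) h3 (by norm_num)
    refine h4.trans (le_of_eq ?_)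
    rw [← Real.rpow_natCast, ← Real.rpow_mul hn.le, ← Real.rpow_neg_one]
    norm_num
  obtain ⟨B, hB⟩ := hΦ.continuous.bounded_above_of_compact_support hc
  have hlim : Tendsto (fun n : ℕ => ∫ w, pf w * Φ (x + (1 / ((n : ℝ) + 1)) • w)) atTop
      (𝓝 (∫ w, pf w * Φ x)) := by
    refine tendsto_integral_of_dominated_convergence (fun w => pf w * B) (fun n => ?_) (pf_int.mul_const B)
      (fun n => Eventually.of_forall fun w => ?_) (Eventually.of_forall fun w => ?_)
    · exact (pf_cont.mul (hΦ.continuous.comp (by fun_prop))).aestronglyMeasurable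
    · rw [norm_mul, Real.norm_of_nonneg (pf_pos w).le]
      exact mul_le_mul_of_nonneg_left (hB _) (pf_pos w).le
    · have h1 : Tendsto (fun n : ℕ => x + (1 / ((n : ℝ) + 1)) • w) atTop (𝓝 (x + (0 : ℝ) • w)) :=
        tendsto_const_nhds.add ((tendsto_one_div_add_atTop_nhds_zero_nat).smul_const w)
      rw [zero_smul, add_zero] at h1
      exact ((hΦ.continuous.tendsto x).comp h1).const_mul (pf w)
  have h1 := le_of_tendsto' hlim.abs key
  rw [integral_mul_const, abs_mul, abs_of_pos hc0] at h1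
  rw [inv_mul_eq_div, le_div_iff₀ hc0, mul_comm]
  exact h1

end Pool.Agent.D0H65.OV
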