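import Pool.Agent.D0H65.OV.Ker6
import Pool.Agent.D0H65.OV.Nwt

/-! Project OV (helper28), package C3 (helper65): the Morrey bound of the stream function. -/

set_option autoImplicit false

open MeasureTheory Set Metric Filter Topology
open scoped ContDiff ENNReal
open H459R3.NS Pool.Agent.W268.NS Pool.Agent.Q67.VD

namespace Pool.Agent.D0H65.OV

open Pool.Agent.Q85.CC Pool.Agent.Q85.CL Pool.Agent.TH305.AX Pool.Agent.Q67.AXI
open Pool.Agent.D0H28.OV
open W918.MD (pd_of pd_smooth smooth_diff)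

theorem sg_meas : Measurable (fun x : V => sg x) := by
  unfold sg
  fun_prop

theorem ae_z (d : ℝ) : ∀ᵐ x : V, x 2 ≠ d := by
  have h := Measure.ae_eval_ne (fun _ : Fin 3 => (volume : Measure ℝ)) (2 : Fin 3) d
  rw [← volume_pi] at h
  exact h

theorem ae_sg (R : ℝ) : ∀ᵐ x : V, sg x ≠ R := by
  have h1 : ∀ᵐ p : ℝ × (Fin 2 → ℝ), p.1 ^ 2 + p.2 0 ^ 2 ≠ R := by
    rw [Measure.volume_eq_prod, Measure.ae_prod_iff_ae_ae]
    · refine Eventually.of_forall fun t => ?_
      have h2 : ∀ᵐ w : Fin 2 → ℝ, w 0 ≠ √(R - t ^ 2) := by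
        rw [volume_pi]
        exact Measure.ae_eval_ne (fun _ => volume) (0 : Fin 2) _
      have h3 : ∀ᵐ w : Fin 2 → ℝ, w 0 ≠ -√(R - t ^ 2) := by
        rw [volume_pi]
        exact Measure.ae_eval_ne (fun _ => volume) (0 : Fin 2) _
      filter_upwards [h2, h3] with w h2 h3 h
      have h4 : R - t ^ 2 = w 0 ^ 2 := by linarith
      rw [h4, Real.sqrt_sq_eq_abs] at h2 h3
      rcases abs_choice (w 0) with h6 | h6
      · exact h2 h6.symm
      · exact h3 (by rw [h6, neg_neg])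
    · have hm : Measurable (fun p : ℝ × (Fin 2 → ℝ) => p.1 ^ 2 + p.2 0 ^ 2) := by fun_prop
      exact (measurableSet_eq_fun hm measurable_const).compl
  have h2 := (volume_preserving_piFinSuccAbove (fun _ => ℝ) (0 : Fin 3)).quasiMeasurePreserving.ae h1
  filter_upwards [h2] with x hx h
  exact hx h

theorem pd_crd (i j : Fin 3) (z : V) : pd j (fun y : V => y i) z = if i = j then 1 else 0 := by
  have h3 : HasFDerivAt (fun z : V => z i) (ContinuousLinearMap.proj i : V →L[ℝ] ℝ) z :=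
    hasFDerivAt_apply (𝕜 := ℝ) i z
  rw [pd_of h3 j]
  simp [Pi.single_apply]

theorem lap_crd (i : Fin 3) (z : V) : lap (fun y : V => y i) z = 0 := by
  unfold lap
  refine Finset.sum_eq_zero fun j _ => ?_
  have : pd j (fun y : V => y i) = fun _ => if i = j then (1 : ℝ) else 0 := by
    funext y
    exact pd_crd i j y
  rw [this, W918.MD.pd_const]

theorem lap_cF {F : V → ℝ} (hF : ContDiff ℝ ∞ F) (i : Fin 3) (z : V) :
    lap (fun y => y i * F y) z = 2 * pd i F z + z i * lap F z := by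
  have hc : ContDiff ℝ ∞ (fun y : V => y i) := by fun_prop
  rw [W918.MD.lap_mul hc hF, lap_crd, zero_mul, zero_add]
  congr 1
  simp [pd_crd]

theorem lap_off {F : V → ℝ} {x : V} (hx : x ∉ tsupport F) : lap F x = 0 := by
  unfold lap
  refine Finset.sum_eq_zero fun i _ => ?_
  refine Pool.Agent.Q149.AXI.pd_off (fun h => ?_) i
  have : pd i F =ᶠ[𝓝 x] fun _ => 0 := by
    filter_upwards [(isClosed_tsupport F).isOpen_compl.mem_nhds hx] with y hy
    exact Pool.Agent.Q149.AXI.pd_off hy i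
  exact (notMem_tsupport_iff_eventuallyEq.2 this) h

theorem lap_LL {F q : V → ℝ} (hF : ContDiff ℝ ∞ F)
    (hq : ∀ x, pd 0 F x = x 0 * q x ∧ pd 1 F x = x 1 * q x ∧ RR F x = sg x * q x) {z : V} (hz : sg z ≠ 0) :
    lap (fun y => y 0 * F y) z = z 0 * LL F z ∧ lap (fun y => y 1 * F y) z = z 1 * LL F z := by
  obtain ⟨h0, h1, h2⟩ := hq z
  rw [lap_cF hF, lap_cF hF, h0, h1]
  unfold LL
  rw [h2]
  have : 2 / sg z * (sg z * q z) = 2 * q z := by field_simp
  rw [this]
  constructor <;> ring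

theorem LL_int {F q : V → ℝ} (hF : ContDiff ℝ ∞ F) (hc : HasCompactSupport F) (hqs : Continuous q)
    (hq : ∀ x, pd 0 F x = x 0 * q x ∧ pd 1 F x = x 1 * q x ∧ RR F x = sg x * q x) : Integrable (LL F) := by
  have h1 : IntegrableOn (fun x => lap F x + 2 * q x) (tsupport F) :=
    ((lap_smooth hF).continuous.add (continuous_const.mul hqs)).continuousOn.integrableOn_compact hc
  rw [← integrable_indicator_iff (isClosed_tsupport F).measurableSet] at h1
  refine h1.congr ?_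
  filter_upwards [ae_sg 0] with x hx
  by_cases hxF : x ∈ tsupport F
  · rw [indicator_of_mem hxF]
    unfold LL
    rw [(hq x).2.2]
    field_simp
  · rw [indicator_of_notMem hxF]
    unfold LL RR
    rw [lap_off hxF, Pool.Agent.Q149.AXI.pd_off hxF 0, Pool.Agent.Q149.AXI.pd_off hxF 1]
    simp

theorem LL_meas {F : V → ℝ} (hF : ContDiff ℝ ∞ F) : Measurable (LL F) := by
  have h0 : Measurable (pd 0 F) := (pd_smooth hF 0).continuous.measurable
  have h1 : Measurable (pd 1 F) := (pd_smooth hF 1).continuous.measurable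
  have h2 : Measurable (lap F) := (lap_smooth hF).continuous.measurable
  have h3 := sg_meas
  have h4 : Measurable (RR F) := by
    unfold RR
    exact ((measurable_pi_apply (0 : Fin 3)).mul h0).add ((measurable_pi_apply (1 : Fin 3)).mul h1)
  unfold LL
  exact h2.add ((measurable_const.div h3).mul h4)

theorem abs_crd_le (x : V) : |x 0| ≤ √(sg x) ∧ |x 1| ≤ √(sg x) := by
  constructor
  · apply Real.le_sqrt_of_sq_le
    rw [sq_abs]
    unfold sg
    nlinarith [sq_nonneg (x 1)]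
  · apply Real.le_sqrt_of_sq_le
    rw [sq_abs]
    unfold sg
    nlinarith [sq_nonneg (x 0)]

theorem newt {F q : V → ℝ} {C : ℝ} (hC : 0 < C)
    (hN : ∀ Φ : V → ℝ, ContDiff ℝ ∞ Φ → HasCompactSupport Φ →
      ∀ x : V, Integrable (fun y => |lap Φ y| / ‖x - y‖) ∧ |Φ x| ≤ C * ∫ y, |lap Φ y| / ‖x - y‖)
    (hF : ContDiff ℝ ∞ F) (hc : HasCompactSupport F) (hax : AxF F)
    (hq : ∀ x, pd 0 F x = x 0 * q x ∧ pd 1 F x = x 1 * q x ∧ RR F x = sg x * q x) (θ : ℝ) (x : V) :
    ENNReal.ofReal (√(sg x) * |F x|) ≤ ENNReal.ofReal (2 * C) *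
      ∫⁻ y, ENNReal.ofReal |LL F y| * ENNReal.ofReal (√(sg y) * (1 / ‖rot θ x - y‖)) := by
  obtain ⟨z, hz⟩ : ∃ z : V, z = rot θ x := ⟨_, rfl⟩
  have hFz : F z = F x := by rw [hz]; exact hax θ x
  have hsz : sg x = z 0 ^ 2 + z 1 ^ 2 := by rw [hz]; exact (rot_sq θ x).symm
  rw [← hz]
  obtain ⟨I, hI⟩ : ∃ I : ℝ≥0∞, I = ∫⁻ y, ENNReal.ofReal |LL F y| * ENNReal.ofReal (√(sg y) * (1 / ‖z - y‖)) :=
    ⟨_, rfl⟩
  rw [← hI]
  have key : ∀ i : Fin 3, (∀ y, sg y ≠ 0 → lap (fun y => y i * F y) y = y i * LL F y) →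
      (∀ y : V, |y i| ≤ √(sg y)) → ENNReal.ofReal |z i * F z| ≤ ENNReal.ofReal C * I := by
    intro i hi1 hi2
    have hs : ContDiff ℝ ∞ (fun y : V => y i * F y) := by
      have hc : ContDiff ℝ ∞ (fun y : V => y i) := by fun_prop
      exact hc.mul hF
    obtain ⟨h1, h2⟩ := hN (fun y : V => y i * F y) hs hc.mul_left z
    refine (ENNReal.ofReal_le_ofReal h2).trans ?_
    rw [ENNReal.ofReal_mul hC.le]
    gcongr
    rw [ofReal_integral_eq_lintegral_ofReal h1 (Eventually.of_forall fun y => by positivity), hI]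
    apply lintegral_mono_ae
    filter_upwards [ae_sg 0] with y hy
    rw [hi1 y hy, abs_mul, ← ENNReal.ofReal_mul (abs_nonneg _)]
    apply ENNReal.ofReal_le_ofReal
    have h3 := hi2 y
    have h4 : |y i| * |LL F y| / ‖z - y‖ = |y i| * (|LL F y| * (1 / ‖z - y‖)) := by ring
    have h5 : |LL F y| * (√(sg y) * (1 / ‖z - y‖)) = √(sg y) * (|LL F y| * (1 / ‖z - y‖)) := by ring
    rw [h4, h5]
    gcongr
  have k0 := key 0 (fun y hy => (lap_LL hF hq hy).1) (fun y => (abs_crd_le y).1)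
  have k1 := key 1 (fun y hy => (lap_LL hF hq hy).2) (fun y => (abs_crd_le y).2)
  have h1 : √(sg x) * |F x| ≤ |z 0 * F z| + |z 1 * F z| := by
    rw [abs_mul, abs_mul, ← add_mul, hFz]
    refine mul_le_mul_of_nonneg_right ?_ (abs_nonneg _)
    rw [hsz]
    apply Real.sqrt_le_iff.2
    refine ⟨by positivity, ?_⟩
    nlinarith [sq_abs (z 0), sq_abs (z 1), mul_nonneg (abs_nonneg (z 0)) (abs_nonneg (z 1))]
  refine (ENNReal.ofReal_le_ofReal h1).trans ?_
  rw [ENNReal.ofReal_add (abs_nonneg _) (abs_nonneg _)]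
  refine (add_le_add k0 k1).trans (le_of_eq ?_)
  rw [← two_mul, ← mul_assoc, ENNReal.ofReal_mul (by norm_num)]
  norm_num

/-- The bound of the ring average. -/
noncomputable def kk (C1 s : ℝ) (x y : V) : ℝ≥0∞ :=
  if √(sg y) ≤ 2 * s then
    ENNReal.ofReal (C1 * √(sg y) ^ (1 / 4 : ℝ) * |√(sg x) - √(sg y)| ^ (-(1 / 8) : ℝ)
      * |x 2 - y 2| ^ (-(1 / 8) : ℝ))
  else ENNReal.ofReal (4 * √2 * Real.pi)

theorem kk_meas (C1 s : ℝ) : Measurable (fun p : V × V => kk C1 s p.1 p.2) := by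
  have h1 : Measurable (fun p : V × V => √(sg p.1)) := (sg_meas.comp measurable_fst).sqrt
  have h2 : Measurable (fun p : V × V => √(sg p.2)) := (sg_meas.comp measurable_snd).sqrt
  have h3 : Measurable (fun p : V × V => p.1 2) := (measurable_pi_apply (2 : Fin 3)).comp measurable_fst
  have h4 : Measurable (fun p : V × V => p.2 2) := (measurable_pi_apply (2 : Fin 3)).comp measurable_snd
  unfold kk
  refine Measurable.ite (measurableSet_le h2 measurable_const) ?_ measurable_const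
  exact (((h2.pow_const _).const_mul _).mul (((h1.sub h2).abs).pow_const _)).mul
    (((h3.sub h4).abs).pow_const _) |>.ennreal_ofReal

theorem kk_ring {C1 s : ℝ} (hs : 0 < s)
    (hR : ∀ x y : V, 0 < sg y → √(sg x) ≠ √(sg y) → x 2 ≠ y 2 →
      IntervalIntegrable (fun θ => 1 / ‖rot θ x - y‖) volume 0 (2 * Real.pi) ∧
      √(sg y) * (∫ θ in (0 : ℝ)..(2 * Real.pi), 1 / ‖rot θ x - y‖)
        ≤ C1 * √(sg y) ^ (1 / 4 : ℝ) * |√(sg x) - √(sg y)| ^ (-(1 / 8) : ℝ)
          * |x 2 - y 2| ^ (-(1 / 8) : ℝ)) {x y : V} (hx : √(sg x) ≤ s) (hy : sg y ≠ 0)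
    (hxy : √(sg x) ≠ √(sg y)) (hz : x 2 ≠ y 2) :
    ∫⁻ θ in Ioc 0 (2 * Real.pi), ENNReal.ofReal (√(sg y) * (1 / ‖rot θ x - y‖)) ≤ kk C1 s x y := by
  have hp := Real.pi_pos
  unfold kk
  split_ifs with h
  · obtain ⟨h1, h2⟩ := hR x y (lt_of_le_of_ne (sg_nn y) (Ne.symm hy)) hxy hz
    have h3 := (intervalIntegrable_iff_integrableOn_Ioc_of_le (by positivity)).1 (h1.const_mul (√(sg y)))
    rw [← ofReal_integral_eq_lintegral_ofReal h3 (Eventually.of_forall fun θ => by positivity)]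
    apply ENNReal.ofReal_le_ofReal
    rw [← intervalIntegral.integral_of_le (by positivity), intervalIntegral.integral_const_mul]
    exact h2
  · rw [not_le] at h
    obtain ⟨θ₀, hθ₀⟩ := phase x y
    have h1 : ∀ θ ∈ Ioc 0 (2 * Real.pi), ENNReal.ofReal (√(sg y) * (1 / ‖rot θ x - y‖)) ≤
        ENNReal.ofReal (2 * √2) := by
      intro θ _
      apply ENNReal.ofReal_le_ofReal
      have e := Real.cos_arccos (Real.neg_one_le_cos (θ - θ₀)) (Real.cos_le_one _)
      have h2 := hθ₀ θ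
      rw [← e] at h2
      have h3 : |Real.arccos (Real.cos (θ - θ₀))| ≤ Real.pi := by
        rw [abs_of_nonneg (Real.arccos_nonneg _)]
        exact Real.arccos_le_pi _
      have h4 := (low_ab h2 h3).1
      have h5 : √(sg y) / 2 ≤ √2 * ‖rot θ x - y‖ := by
        refine le_trans ?_ h4
        rw [abs_sub_comm]
        refine le_trans ?_ (le_abs_self _)
        linarith
      have h6 : 0 < √(sg y) := by linarith
      have h7 : 0 < √2 * ‖rot θ x - y‖ := by linarith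
      have h8 : 0 < ‖rot θ x - y‖ := by
        by_contra hcon
        have h9 : ‖rot θ x - y‖ = 0 := le_antisymm (not_lt.1 hcon) (norm_nonneg _)
        rw [h9, mul_zero] at h7
        exact lt_irrefl _ h7
      rw [mul_one_div, div_le_iff₀ h8]
      linarith
    refine (setLIntegral_mono' measurableSet_Ioc h1).trans (le_of_eq ?_)
    rw [setLIntegral_const, Real.volume_Ioc, ← ENNReal.ofReal_mul (by positivity)]
    congr 1
    ring

theorem holder6 {E k : V → ℝ≥0∞} (hE : Measurable E) (hk : Measurable k) :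
    (∫⁻ y, E y * k y) ^ 6 ≤ (∫⁻ y, E y) ^ 5 * ∫⁻ y, E y * k y ^ 6 := by
  have hpq : (6 / 5 : ℝ).HolderConjugate 6 := by
    rw [Real.holderConjugate_iff]
    norm_num
  have h := ENNReal.lintegral_mul_le_Lp_mul_Lq volume hpq (f := fun y => E y ^ (5 / 6 : ℝ))
    (g := fun y => E y ^ (1 / 6 : ℝ) * k y) (hE.pow_const _).aemeasurable ((hE.pow_const _).mul hk).aemeasurable
  have e1 : ∀ y, ((fun y => E y ^ (5 / 6 : ℝ)) * (fun y => E y ^ (1 / 6 : ℝ) * k y)) y = E y * k y := by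
    intro y
    rw [Pi.mul_apply, ← mul_assoc, ← ENNReal.rpow_add_of_nonneg _ _ (by norm_num) (by norm_num)]
    norm_num
  have e2 : ∀ y, (E y ^ (5 / 6 : ℝ)) ^ (6 / 5 : ℝ) = E y := by
    intro y
    rw [← ENNReal.rpow_mul]
    norm_num
  have e3 : ∀ y, (E y ^ (1 / 6 : ℝ) * k y) ^ (6 : ℝ) = E y * k y ^ 6 := by
    intro y
    rw [ENNReal.mul_rpow_of_nonneg _ _ (by norm_num), ← ENNReal.rpow_mul]
    norm_num
  rw [lintegral_congr e1, lintegral_congr e2, lintegral_congr e3] at h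
  have h2 := pow_le_pow_left' h 6
  refine h2.trans (le_of_eq ?_)
  rw [mul_pow, ← ENNReal.rpow_natCast, ← ENNReal.rpow_mul, ← ENNReal.rpow_natCast, ← ENNReal.rpow_mul,
    ← ENNReal.rpow_natCast]
  norm_num

theorem vol_Co (c s : ℝ) (hs : 0 < s) : volume (Co c s s) ≤ ENNReal.ofReal (8 * s ^ 3) := by
  have h1 : Co c s s ⊆ ball (![0, 0, c] : V) s := by
    intro x hx
    obtain ⟨h1, h2⟩ := hx
    rw [mem_ball, dist_pi_lt_iff hs]
    have h3 : |x 0| < s := (abs_crd_le x).1.trans_lt ((Real.sqrt_lt' hs).2 h1)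
    have h4 : |x 1| < s := (abs_crd_le x).2.trans_lt ((Real.sqrt_lt' hs).2 h1)
    intro i
    fin_cases i
    · simpa [Real.dist_eq] using h3
    · simpa [Real.dist_eq] using h4
    · simpa [Real.dist_eq] using h2
  refine (measure_mono h1).trans (le_of_eq ?_)
  rw [Real.volume_pi_ball _ hs]
  congr 1
  simp
  ring

theorem Co_meas (c s : ℝ) : MeasurableSet (Co c s s) := by
  unfold Co
  have h2 : Measurable (fun x : V => x 2) := measurable_pi_apply (2 : Fin 3)
  have h3 : Measurable (fun x : V => |x 2 - c|) := (h2.sub_const c).abs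
  exact (measurableSet_lt sg_meas measurable_const).inter (measurableSet_lt h3 measurable_const)

theorem kk6 {C1 C2 s c : ℝ} (hs : 0 < s) (hC1 : 0 < C1) (hC2 : 0 < C2)
    (hK : ∀ c s b d : ℝ, 0 < s →
      ∫⁻ x in Co c s s, ENNReal.ofReal (|√(sg x) - b| ^ (-(3 / 4) : ℝ) * |x 2 - d| ^ (-(3 / 4) : ℝ))
        ≤ ENNReal.ofReal (C2 * s ^ (3 / 2 : ℝ))) (y : V) :
    ∫⁻ x in Co c s s, kk C1 s x y ^ 6 ≤
      ENNReal.ofReal ((C1 ^ 6 * 2 ^ (3 / 2 : ℝ) * C2 + (4 * √2 * Real.pi) ^ 6 * 8) * s ^ 3) := by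
  have hp := Real.pi_pos
  by_cases h : √(sg y) ≤ 2 * s
  · have h1 : ∀ x, kk C1 s x y ^ 6 = ENNReal.ofReal (C1 ^ 6 * √(sg y) ^ (3 / 2 : ℝ)) *
        ENNReal.ofReal (|√(sg x) - √(sg y)| ^ (-(3 / 4) : ℝ) * |x 2 - y 2| ^ (-(3 / 4) : ℝ)) := by
      intro x
      unfold kk
      rw [if_pos h, ← ENNReal.ofReal_pow (by positivity), ← ENNReal.ofReal_mul (by positivity)]
      congr 1
      have e : ∀ (t r : ℝ), 0 ≤ t → (t ^ r) ^ 6 = t ^ (6 * r) := by
        intro t r ht
        rw [← Real.rpow_natCast, ← Real.rpow_mul ht]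
        congr 1
        push_cast
        ring
      rw [mul_pow, mul_pow, mul_pow, e _ _ (Real.sqrt_nonneg _), e _ _ (abs_nonneg _), e _ _ (abs_nonneg _)]
      norm_num
      ring
    rw [lintegral_congr h1, lintegral_const_mul _ (ker6_meas _ _).ennreal_ofReal]
    refine (mul_le_mul' le_rfl (hK c s (√(sg y)) (y 2) hs)).trans ?_
    rw [← ENNReal.ofReal_mul (by positivity)]
    apply ENNReal.ofReal_le_ofReal
    have h2 : √(sg y) ^ (3 / 2 : ℝ) ≤ 2 ^ (3 / 2 : ℝ) * s ^ (3 / 2 : ℝ) := by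
      rw [← Real.mul_rpow (by norm_num) hs.le]
      exact Real.rpow_le_rpow (Real.sqrt_nonneg _) h (by norm_num)
    have h3 : s ^ (3 / 2 : ℝ) * s ^ (3 / 2 : ℝ) = s ^ 3 := by
      rw [← Real.rpow_add hs, ← Real.rpow_natCast]
      norm_num
    have h4 : C1 ^ 6 * √(sg y) ^ (3 / 2 : ℝ) * (C2 * s ^ (3 / 2 : ℝ)) ≤
        C1 ^ 6 * (2 ^ (3 / 2 : ℝ) * s ^ (3 / 2 : ℝ)) * (C2 * s ^ (3 / 2 : ℝ)) := by
      gcongr
    have h5 : C1 ^ 6 * (2 ^ (3 / 2 : ℝ) * s ^ (3 / 2 : ℝ)) * (C2 * s ^ (3 / 2 : ℝ)) =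
        C1 ^ 6 * 2 ^ (3 / 2 : ℝ) * C2 * s ^ 3 := by
      rw [← h3]
      ring
    have h6 : 0 ≤ (4 * √2 * Real.pi) ^ 6 * 8 * s ^ 3 := by positivity
    linarith
  · have h1 : ∀ x, kk C1 s x y ^ 6 = ENNReal.ofReal ((4 * √2 * Real.pi) ^ 6) := by
      intro x
      unfold kk
      rw [if_neg h, ← ENNReal.ofReal_pow (by positivity)]
    rw [lintegral_congr h1, setLIntegral_const]
    refine (mul_le_mul' le_rfl (vol_Co c s hs)).trans ?_
    rw [← ENNReal.ofReal_mul (by positivity)]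
    apply ENNReal.ofReal_le_ofReal
    have h6 : 0 ≤ C1 ^ 6 * 2 ^ (3 / 2 : ℝ) * C2 * s ^ 3 := by positivity
    nlinarith

theorem l6 : StmAxF → StmL6 := by
  intro hAxF
  obtain ⟨C, hC, hN⟩ := nwt
  obtain ⟨C1, hC1, hR⟩ := ring
  obtain ⟨C2, hC2, hK⟩ := ker6L
  have hp := Real.pi_pos
  refine ⟨(2 * C / (2 * Real.pi)) ^ 6 * (C1 ^ 6 * 2 ^ (3 / 2 : ℝ) * C2 + (4 * √2 * Real.pi) ^ 6 * 8), by positivity,
    fun F hF hc hax c s hs => ?_⟩
  obtain ⟨_, _, _, q, hqs, _, hq⟩ := hAxF F hF hax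
  have hLI := LL_int hF hc hqs.continuous hq
  have hLm := LL_meas hF
  obtain ⟨E, hE⟩ : ∃ E : V → ℝ≥0∞, E = fun y => ENNReal.ofReal |LL F y| := ⟨_, rfl⟩
  have hEm : Measurable E := by
    rw [hE]
    exact hLm.abs.ennreal_ofReal
  obtain ⟨M, hM⟩ : ∃ M : ℝ, M = ∫ x, |LL F x| := ⟨_, rfl⟩
  have hM0 : 0 ≤ M := by
    rw [hM]
    positivity
  have hEM : ∫⁻ y, E y = ENNReal.ofReal M := by
    rw [hM, hE, ofReal_integral_eq_lintegral_ofReal hLI.abs (Eventually.of_forall fun y => abs_nonneg _)]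
  -- the pointwise bound
  have h1 : ∀ x : V, √(sg x) ≤ s → ENNReal.ofReal (2 * Real.pi) * ENNReal.ofReal (√(sg x) * |F x|) ≤
      ENNReal.ofReal (2 * C) * ∫⁻ y, E y * kk C1 s x y := by
    intro x hx
    have hm : Measurable (fun p : ℝ × V => E p.2 * ENNReal.ofReal (√(sg p.2) * (1 / ‖rot p.1 x - p.2‖))) := by
      refine (hEm.comp measurable_snd).mul (Measurable.ennreal_ofReal ?_)
      refine ((sg_meas.comp measurable_snd).sqrt).mul (measurable_const.div ?_)
      exact (((rot_cont x).comp continuous_fst).sub continuous_snd).norm.measurable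
    calc ENNReal.ofReal (2 * Real.pi) * ENNReal.ofReal (√(sg x) * |F x|)
        = ∫⁻ _θ in Ioc 0 (2 * Real.pi), ENNReal.ofReal (√(sg x) * |F x|) := by
          rw [setLIntegral_const, Real.volume_Ioc, mul_comm, sub_zero]
      _ ≤ ∫⁻ θ in Ioc 0 (2 * Real.pi), ENNReal.ofReal (2 * C) *
            ∫⁻ y, E y * ENNReal.ofReal (√(sg y) * (1 / ‖rot θ x - y‖)) := by
          apply lintegral_mono
          intro θ
          rw [hE]
          exact newt hC hN hF hc hax hq θ x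
      _ = ENNReal.ofReal (2 * C) * ∫⁻ θ in Ioc 0 (2 * Real.pi),
            ∫⁻ y, E y * ENNReal.ofReal (√(sg y) * (1 / ‖rot θ x - y‖)) := by
          rw [lintegral_const_mul]
          exact hm.lintegral_prod_right'
      _ = ENNReal.ofReal (2 * C) * ∫⁻ y, ∫⁻ θ in Ioc 0 (2 * Real.pi),
            E y * ENNReal.ofReal (√(sg y) * (1 / ‖rot θ x - y‖)) := by
          rw [lintegral_lintegral_swap hm.aemeasurable]
      _ ≤ ENNReal.ofReal (2 * C) * ∫⁻ y, E y * kk C1 s x y := by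
          refine mul_le_mul' le_rfl (lintegral_mono_ae ?_)
          filter_upwards [ae_sg 0, ae_sg (sg x), ae_z (x 2)] with y h1 h2 h3
          rw [lintegral_const_mul]
          · gcongr
            refine kk_ring hs hR hx h1 ?_ (Ne.symm h3)
            intro h4
            exact h2 ((Real.sqrt_inj (sg_nn x) (sg_nn y)).1 h4).symm
          · refine Measurable.ennreal_ofReal (measurable_const.mul (measurable_const.div ?_))
            exact ((rot_cont x).sub continuous_const).norm.measurable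
  -- the sixth power
  have h2 : ∀ x : V, √(sg x) ≤ s → ENNReal.ofReal (sg x ^ 3 * F x ^ 6) ≤
      ENNReal.ofReal ((2 * C / (2 * Real.pi)) ^ 6) * (ENNReal.ofReal (M ^ 5) * ∫⁻ y, E y * kk C1 s x y ^ 6) := by
    intro x hx
    have h3 : ENNReal.ofReal (√(sg x) * |F x|) ≤ ENNReal.ofReal (2 * C / (2 * Real.pi)) *
        ∫⁻ y, E y * kk C1 s x y := by
      have h4 := mul_le_mul' (le_refl (ENNReal.ofReal (2 * Real.pi)⁻¹)) (h1 x hx)
      have e1 : ENNReal.ofReal (2 * Real.pi)⁻¹ * ENNReal.ofReal (2 * Real.pi) = 1 := by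
        rw [← ENNReal.ofReal_mul (by positivity), inv_mul_cancel₀ (by positivity), ENNReal.ofReal_one]
      rw [← mul_assoc, e1, one_mul, ← mul_assoc, ← ENNReal.ofReal_mul (by positivity)] at h4
      refine h4.trans (le_of_eq ?_)
      rw [div_eq_inv_mul]
    have h5 := pow_le_pow_left' h3 6
    have h6 : ENNReal.ofReal (sg x ^ 3 * F x ^ 6) = ENNReal.ofReal (√(sg x) * |F x|) ^ 6 := by
      rw [← ENNReal.ofReal_pow (by positivity)]
      congr 1
      have e1 : (√(sg x) * |F x|) ^ 6 = (√(sg x) ^ 2) ^ 3 * (|F x| ^ 2) ^ 3 := by ring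
      rw [e1, Real.sq_sqrt (sg_nn x), sq_abs]
      ring
    rw [h6]
    refine h5.trans ?_
    rw [mul_pow, ← ENNReal.ofReal_pow (by positivity)]
    gcongr
    have hkm : Measurable (fun y => kk C1 s x y) := (kk_meas C1 s).comp measurable_prodMk_left
    refine (holder6 hEm hkm).trans (le_of_eq ?_)
    rw [hEM, ENNReal.ofReal_pow hM0]
  have h3 : ∫⁻ x in Co c s s, ENNReal.ofReal (sg x ^ 3 * F x ^ 6) ≤
      ENNReal.ofReal ((2 * C / (2 * Real.pi)) ^ 6 * (C1 ^ 6 * 2 ^ (3 / 2 : ℝ) * C2 + (4 * √2 * Real.pi) ^ 6 * 8) *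
        s ^ 3 * M ^ 6) := by
    have hkm6 : Measurable (fun p : V × V => E p.2 * kk C1 s p.1 p.2 ^ 6) :=
      (hEm.comp measurable_snd).mul ((kk_meas C1 s).pow_const 6)
    calc ∫⁻ x in Co c s s, ENNReal.ofReal (sg x ^ 3 * F x ^ 6)
        ≤ ∫⁻ x in Co c s s, ENNReal.ofReal ((2 * C / (2 * Real.pi)) ^ 6) *
            (ENNReal.ofReal (M ^ 5) * ∫⁻ y, E y * kk C1 s x y ^ 6) := by
          apply setLIntegral_mono' (Co_meas c s)
          intro x hx
          apply h2 x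
          exact ((Real.sqrt_lt' hs).2 hx.1).le
      _ = ENNReal.ofReal ((2 * C / (2 * Real.pi)) ^ 6) * (ENNReal.ofReal (M ^ 5) *
            ∫⁻ x in Co c s s, ∫⁻ y, E y * kk C1 s x y ^ 6) := by
          rw [lintegral_const_mul, lintegral_const_mul]
          · exact hkm6.lintegral_prod_right'
          · exact hkm6.lintegral_prod_right'.const_mul _
      _ = ENNReal.ofReal ((2 * C / (2 * Real.pi)) ^ 6) * (ENNReal.ofReal (M ^ 5) *
            ∫⁻ y, ∫⁻ x in Co c s s, E y * kk C1 s x y ^ 6) := by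
          rw [lintegral_lintegral_swap hkm6.aemeasurable]
      _ ≤ ENNReal.ofReal ((2 * C / (2 * Real.pi)) ^ 6) * (ENNReal.ofReal (M ^ 5) *
            ∫⁻ y, E y * ENNReal.ofReal ((C1 ^ 6 * 2 ^ (3 / 2 : ℝ) * C2 + (4 * √2 * Real.pi) ^ 6 * 8) * s ^ 3)) := by
          gcongr with y
          rw [lintegral_const_mul]
          · gcongr
            exact kk6 hs hC1 hC2 hK y
          · exact ((kk_meas C1 s).comp measurable_prodMk_right).pow_const 6
      _ = _ := by
          rw [lintegral_mul_const _ hEm, hEM, ← ENNReal.ofReal_mul (by positivity),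
            ← ENNReal.ofReal_mul (by positivity), ← ENNReal.ofReal_mul (by positivity)]
          congr 1
          ring
  rw [← hM]
  rw [integral_eq_lintegral_of_nonneg_ae (Eventually.of_forall fun x => by
    have := sg_nn x
    positivity) (by
    have hsc : Continuous (fun x : V => sg x) := by
      unfold sg
      fun_prop
    exact ((hsc.pow 3).mul (hF.continuous.pow 6)).aestronglyMeasurable)]
  have h4 := ENNReal.toReal_mono ENNReal.ofReal_ne_top h3
  rw [ENNReal.toReal_ofReal (by positivity)] at h4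
  exact h4

end Pool.Agent.D0H65.OV
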