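import Pool.Agent.D0H65.OV.Poi
import Pool.Agent.D0H65.OV.Ax
import Pool.Agent.D0H65.OV.L6

/-! Project OV (helper28), package G (helper65): the logarithmic estimate at one time. -/

set_option autoImplicit false

open MeasureTheory Set Metric Filter Topology
open scoped ContDiff ENNReal
open H459R3.NS Pool.Agent.W268.NS

namespace Pool.Agent.D0H65.OV

open Pool.Agent.Q67.AXI Pool.Agent.TH305.AX Pool.Agent.TH305.DR Pool.Agent.Q85.CL
open Pool.Agent.D0H28.OV
open Pool.Agent.W583.MD (sm_pd cs_pd Z Z.add Z.sub Z.smul Z.sum int_cs Z_pd slice hd_slice)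
open Pool.Agent.Q257.AXI (sg_sm RR_mul RR_add sm_RR)
open Pool.Agent.Q175.AX (pd_mul_at pd_comp_at RR_sm lap_sm gr2_sm gr2_nn RR_sq RR_sq' gr2_int gr2_cs
  RRsg_int RRsg_int' axis_ae)

theorem RR_ch : ∃ N : ℝ, 0 < N ∧ ∀ x, |RR ch x| ≤ N * sg x := by
  obtain ⟨β, hβ⟩ : ∃ β : ℝ → ℝ, β = fun s => Real.smoothTransition (5 / 2 - 8 / 3 * s) := ⟨_, rfl⟩
  obtain ⟨γ, hγ⟩ : ∃ γ : ℝ → ℝ, γ = fun s => Real.smoothTransition (5 / 2 - 8 / 3 * s ^ 2) := ⟨_, rfl⟩
  have sβ : ContDiff ℝ ∞ β := by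
    rw [hβ]
    exact Real.smoothTransition.contDiff.comp (by fun_prop)
  have sγ : ContDiff ℝ ∞ γ := by
    rw [hγ]
    exact Real.smoothTransition.contDiff.comp (by fun_prop)
  have e : ch = fun y => β (sg y) * γ (y 2) := by
    rw [hβ, hγ]
    rfl
  have s2 : ContDiff ℝ ∞ (fun y : V => y 2) := by fun_prop
  have h1 : ∀ x, RR ch x = γ (x 2) * (deriv β (sg x) * (2 * sg x)) := by
    intro x
    have k1 : RR (fun y => β (sg y)) x = deriv β (sg x) * RR sg x := RR_chain sβ sg_sm x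
    have k2 : RR (fun y : V => γ (y 2)) x = deriv γ (x 2) * RR (fun y : V => y 2) x := RR_chain sγ s2 x
    have k3 : RR (fun y : V => y 2) x = 0 := by
      unfold RR
      rw [Pool.Agent.TH305.AX.pd_crd, Pool.Agent.TH305.AX.pd_crd]
      simp
    have k4 : RR (fun y => β (sg y) * γ (y 2)) x = β (sg x) * RR (fun y : V => γ (y 2)) x +
        RR (fun y => β (sg y)) x * γ (x 2) := RR_mul (sβ.comp sg_sm) (sγ.comp s2) x
    rw [e, k4, k1, k2, k3, Pool.Agent.Q257.AXI.RR_sg]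
    ring
  obtain ⟨B, hB⟩ := (isCompact_Icc (a := (0 : ℝ)) (b := 15 / 16)).exists_bound_of_continuousOn
    (sm_deriv sβ).continuous.continuousOn
  have hB0 : 0 ≤ B := (norm_nonneg _).trans (hB 0 ⟨le_rfl, by norm_num⟩)
  refine ⟨2 * B + 1, by positivity, fun x => ?_⟩
  have hs := sg_nn x
  by_cases hx : x ∈ tsupport ch
  · have h2 := (ch_ts hx).1
    have h3 := hB (sg x) ⟨hs, h2⟩
    rw [Real.norm_eq_abs] at h3
    rw [h1, abs_mul, abs_mul, abs_of_nonneg (by positivity : 0 ≤ 2 * sg x)]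
    have h4 : |γ (x 2)| ≤ 1 := by
      rw [hγ, abs_of_nonneg (Real.smoothTransition.nonneg _)]
      exact Real.smoothTransition.le_one _
    calc |γ (x 2)| * (|deriv β (sg x)| * (2 * sg x)) ≤ 1 * (B * (2 * sg x)) := by gcongr
      _ ≤ (2 * B + 1) * sg x := by nlinarith
  · rw [(off_supp hx).2.2.1, abs_zero]
    positivity

theorem pd_ch : ∃ N : ℝ, 0 < N ∧ ∀ x i, |pd i ch x| ≤ N := by
  have hB : ∀ j : Fin 3, ∃ M : ℝ, ∀ x, ‖pd j ch x‖ ≤ M := fun j =>
    (sm_pd ch_sm j).continuous.bounded_above_of_compact_support (cs_pd ch_cs j)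
  choose M hM using hB
  refine ⟨|M 0| + |M 1| + |M 2| + 1, by positivity, fun x i => ?_⟩
  have h := hM i x
  rw [Real.norm_eq_abs] at h
  have h0 := le_abs_self (M 0)
  have h1 := le_abs_self (M 1)
  have h2 := le_abs_self (M 2)
  have k0 := abs_nonneg (M 0)
  have k1 := abs_nonneg (M 1)
  have k2 := abs_nonneg (M 2)
  fin_cases i
  · refine h.trans ?_
    show M 0 ≤ _
    linarith
  · refine h.trans ?_
    show M 1 ≤ _
    linarith
  · refine h.trans ?_
    show M 2 ≤ _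
    linarith

theorem axis_pos : 0 < ∫ z : ℝ, ch ![0, 0, z] ^ 2 := by
  have hc : Continuous (fun z : ℝ => ch ![0, 0, z] ^ 2) := by
    refine (ch_sm.continuous.comp ?_).pow 2
    apply continuous_pi
    intro i
    fin_cases i <;> simp <;> fun_prop
  have hcs : HasCompactSupport (fun z : ℝ => ch ![0, 0, z] ^ 2) := by
    refine HasCompactSupport.intro (isCompact_Icc (a := (-1 : ℝ)) (b := 1)) fun z hz => ?_
    have : ch ![0, 0, z] = 0 := by
      by_contra hcon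
      apply hz
      have h1 : z ^ 2 ≤ 15 / 16 := (ch_off hcon).2
      constructor <;> nlinarith
    rw [this]
    ring
  rw [integral_pos_iff_support_of_nonneg (fun z => sq_nonneg _) (hc.integrable_of_hasCompactSupport hcs)]
  have h1 : Ioo (0 : ℝ) (1 / 2) ⊆ Function.support (fun z : ℝ => ch ![0, 0, z] ^ 2) := by
    intro z hz
    have h2 : (![0, 0, z] : V) ∈ Cy 0 (3 / 4) (3 / 4) := by
      refine ⟨?_, ?_⟩
      · unfold sg
        show (0 : ℝ) ^ 2 + (0 : ℝ) ^ 2 ≤ _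
        norm_num
      · show |z - 0| ≤ 3 / 4
        rw [sub_zero, abs_of_pos hz.1]
        linarith [hz.2]
    rw [Function.mem_support, ch_one h2]
    norm_num
  refine lt_of_lt_of_le ?_ (measure_mono h1)
  rw [Real.volume_Ioo]
  norm_num

/-- The integral over the support of the cutoff. -/
theorem supp_int {F : V → ℝ} (hF : Continuous F) :
    IntegrableOn (fun x => 1 + sg x * F x ^ 2) (tsupport ch) ∧
    ∫ x in tsupport ch, (1 + sg x * F x ^ 2) ≤ 16 + ∫ x in Co 0 1 1, sg x ^ 3 * F x ^ 6 := by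
  have hsc := sg_smooth.continuous
  have hCb : Co 0 1 1 ⊆ closedBall (0 : V) 1 := by
    intro x hx
    obtain ⟨h1, h2⟩ := hx
    rw [mem_closedBall_zero_iff, pi_norm_le_iff_of_nonneg (by norm_num)]
    rw [sub_zero] at h2
    have hx := abs_crd_le x
    have h3 : √(sg x) ≤ 1 := by
      rw [Real.sqrt_le_one]
      linarith
    intro i
    rw [Real.norm_eq_abs]
    fin_cases i
    · exact hx.1.trans h3
    · exact hx.2.trans h3
    · exact h2.le
  have c1 : Continuous (fun x : V => 1 + sg x * F x ^ 2) := continuous_const.add (hsc.mul (hF.pow 2))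
  have c2 : Continuous (fun x : V => sg x ^ 3 * F x ^ 6) := (hsc.pow 3).mul (hF.pow 6)
  have i1 : IntegrableOn (fun x => 1 + sg x * F x ^ 2) (Co 0 1 1) :=
    (c1.continuousOn.integrableOn_compact (isCompact_closedBall (0 : V) 1)).mono_set hCb
  have i2 : IntegrableOn (fun x => sg x ^ 3 * F x ^ 6) (Co 0 1 1) :=
    (c2.continuousOn.integrableOn_compact (isCompact_closedBall (0 : V) 1)).mono_set hCb
  have hv : volume (Co 0 1 1) ≤ ENNReal.ofReal (8 * 1 ^ 3) := vol_Co 0 1 one_pos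
  have i3 : IntegrableOn (fun _ : V => (2 : ℝ)) (Co 0 1 1) :=
    integrableOn_const (hv.trans_lt ENNReal.ofReal_lt_top).ne
  refine ⟨i1.mono_set ch_Co, ?_⟩
  have h1 : ∫ x in tsupport ch, (1 + sg x * F x ^ 2) ≤ ∫ x in Co 0 1 1, (1 + sg x * F x ^ 2) := by
    apply setIntegral_mono_set i1
    · exact Eventually.of_forall fun x => by
        have := sg_nn x
        show 0 ≤ 1 + sg x * F x ^ 2
        positivity
    · exact ch_Co.eventuallyLE
  have h2 : ∫ x in Co 0 1 1, (1 + sg x * F x ^ 2) ≤ ∫ x in Co 0 1 1, (2 + sg x ^ 3 * F x ^ 6) := by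
    apply integral_mono i1 (i3.add i2)
    intro x
    have h3 : 0 ≤ sg x * F x ^ 2 := mul_nonneg (sg_nn x) (sq_nonneg _)
    have h4 : sg x ^ 3 * F x ^ 6 = (sg x * F x ^ 2) ^ 3 := by ring
    show 1 + sg x * F x ^ 2 ≤ 2 + sg x ^ 3 * F x ^ 6
    rw [h4]
    nlinarith [sq_nonneg (sg x * F x ^ 2 - 1), mul_nonneg h3 (sq_nonneg (sg x * F x ^ 2 - 1))]
  have h3 : ∫ x in Co 0 1 1, (2 + sg x ^ 3 * F x ^ 6) = (∫ x in Co (0 : ℝ) 1 1, (2 : ℝ)) + ∫ x in Co 0 1 1, sg x ^ 3 * F x ^ 6 :=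
    integral_add i3 i2
  have h4 : ∫ x in Co (0 : ℝ) 1 1, (2 : ℝ) ≤ 16 := by
    rw [setIntegral_const, smul_eq_mul]
    have h5 : volume.real (Co 0 1 1) ≤ 8 := by
      have h6 := ENNReal.toReal_mono ENNReal.ofReal_ne_top hv
      rw [ENNReal.toReal_ofReal (by norm_num)] at h6
      norm_num at h6
      exact h6
    linarith
  linarith

/-- The pointwise bound of the error terms. -/
theorem ptw {N δ wb : ℝ} {w F : V → ℝ} {x : V} (hN : 0 < N) (hδ : 0 < δ) (hN1 : ∀ i, |pd i ch x| ≤ N)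
    (hN2 : |RR ch x| ≤ N * sg x) (hsg : sg x ≤ 1) :
    (-2 * ∑ i, ch x * pd i ch x * pd i w x) - ch x ^ 2 * gr2 w x + 4 * (ch x * (w x - wb) * (RR ch x / sg x))
      - F x * (2 * ch x * pd 2 ch x * RR w x - 2 * ch x * RR ch x * pd 2 w x) ≤
      -(3 / 4) * (ch x ^ 2 * gr2 w x) + δ * (ch x ^ 2 * (w x - wb) ^ 2)
        + (56 * N ^ 2 + 4 * N ^ 2 / δ) * (1 + sg x * F x ^ 2) := by
  have hs := sg_nn x
  have hc := ch_nn x
  have hF0 : 0 ≤ sg x * F x ^ 2 := mul_nonneg hs (sq_nonneg _)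
  have b1 : -2 * ∑ i, ch x * pd i ch x * pd i w x ≤ 1 / 8 * (ch x ^ 2 * gr2 w x) + 24 * N ^ 2 := by
    have h : ∀ i : Fin 3, -2 * (ch x * pd i ch x * pd i w x) ≤ 1 / 8 * (ch x ^ 2 * pd i w x ^ 2) + 8 * N ^ 2 := by
      intro i
      have h1 : pd i ch x ^ 2 ≤ N ^ 2 := sq_le_sq' (by
        have := (abs_le.1 (hN1 i)).1; linarith) (abs_le.1 (hN1 i)).2
      nlinarith [sq_nonneg (ch x * pd i w x + 8 * pd i ch x)]
    unfold gr2
    rw [Fin.sum_univ_three, Fin.sum_univ_three]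
    linarith [h 0, h 1, h 2]
  have b2 : 4 * (ch x * (w x - wb) * (RR ch x / sg x)) ≤ δ * (ch x ^ 2 * (w x - wb) ^ 2) + 4 * N ^ 2 / δ := by
    have h1 : |RR ch x / sg x| ≤ N := by
      rcases hs.eq_or_lt with h | h
      · rw [← h, div_zero, abs_zero]
        exact hN.le
      · rw [abs_div, abs_of_pos h, div_le_iff₀ h]
        exact hN2
    have h2 : 4 * (ch x * (w x - wb) * (RR ch x / sg x)) ≤ 4 * (ch x * |w x - wb| * N) := by
      refine (le_abs_self _).trans ?_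
      rw [abs_mul, abs_mul, abs_mul, abs_of_nonneg hc, abs_of_pos (by norm_num : (0 : ℝ) < 4)]
      gcongr
    refine h2.trans ?_
    rw [← sq_abs (w x - wb)]
    have h3 : 4 * N ^ 2 / δ = δ * (2 * N / δ) ^ 2 := by
      field_simp
      ring
    have h4 : 4 * (ch x * |w x - wb| * N) = δ * (2 * (ch x * |w x - wb|) * (2 * N / δ)) := by
      field_simp
      ring
    rw [h3, h4, ← mul_add]
    refine mul_le_mul_of_nonneg_left ?_ hδ.le
    nlinarith [sq_nonneg (ch x * |w x - wb| - 2 * N / δ)]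
  have b3 : -(F x * (2 * ch x * pd 2 ch x * RR w x - 2 * ch x * RR ch x * pd 2 w x)) ≤
      1 / 8 * (ch x ^ 2 * gr2 w x) + 32 * N ^ 2 * (sg x * F x ^ 2) := by
    obtain ⟨g, hg⟩ : ∃ g : ℝ, g = √(gr2 w x) := ⟨_, rfl⟩
    have hg0 : 0 ≤ g := by rw [hg]; exact Real.sqrt_nonneg _
    have hgs : g ^ 2 = gr2 w x := by rw [hg, Real.sq_sqrt (gr2_nn _ _)]
    obtain ⟨r, hr⟩ : ∃ r : ℝ, r = √(sg x) := ⟨_, rfl⟩
    have hr0 : 0 ≤ r := by rw [hr]; exact Real.sqrt_nonneg _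
    have hrs : r ^ 2 = sg x := by rw [hr, Real.sq_sqrt hs]
    have hr1 : r ≤ 1 := by
      rw [hr, Real.sqrt_le_left (by norm_num)]
      linarith
    have ha : |pd 2 ch x * RR w x| ≤ N * (r * g) := by
      rw [abs_mul]
      refine mul_le_mul (hN1 2) ?_ (abs_nonneg _) hN.le
      rw [hr, hg]
      exact abs_RR_le _ x
    have hb : |RR ch x * pd 2 w x| ≤ N * (r * g) := by
      rw [abs_mul]
      have h1 : |RR ch x| ≤ N * r := by
        refine hN2.trans ?_
        rw [← hrs]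
        nlinarith [mul_nonneg hN.le hr0]
      calc |RR ch x| * |pd 2 w x| ≤ (N * r) * g :=
            mul_le_mul h1 (by rw [hg]; exact abs_pd_le _ x 2) (abs_nonneg _) (by positivity)
        _ = N * (r * g) := by ring
    have hcc : |pd 2 ch x * RR w x - RR ch x * pd 2 w x| ≤ 2 * (N * (r * g)) := by
      refine (abs_sub _ _).trans ?_
      linarith
    have hd : -(F x * (2 * ch x * pd 2 ch x * RR w x - 2 * ch x * RR ch x * pd 2 w x)) ≤
        |F x| * (2 * ch x * (2 * (N * (r * g)))) := by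
      refine (neg_le_abs _).trans ?_
      have e : 2 * ch x * pd 2 ch x * RR w x - 2 * ch x * RR ch x * pd 2 w x =
          2 * ch x * (pd 2 ch x * RR w x - RR ch x * pd 2 w x) := by ring
      rw [e, abs_mul, abs_mul, abs_of_nonneg (by positivity : 0 ≤ 2 * ch x)]
      gcongr
    refine hd.trans ?_
    rw [← hgs, ← hrs, ← sq_abs (F x)]
    nlinarith [sq_nonneg (ch x * g - 16 * N * r * |F x|)]
  have hN2' : 0 ≤ N ^ 2 := sq_nonneg N
  have hdd : 0 ≤ 4 * N ^ 2 / δ := by positivity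
  have e1 : (56 * N ^ 2 + 4 * N ^ 2 / δ) * (1 + sg x * F x ^ 2) =
      56 * N ^ 2 + 4 * N ^ 2 / δ + 56 * N ^ 2 * (sg x * F x ^ 2) + 4 * N ^ 2 / δ * (sg x * F x ^ 2) := by ring
  rw [e1]
  have k1 : 0 ≤ 4 * N ^ 2 / δ * (sg x * F x ^ 2) := mul_nonneg hdd hF0
  have k2 : 0 ≤ N ^ 2 * (sg x * F x ^ 2) := mul_nonneg hN2' hF0
  linarith

end Pool.Agent.D0H65.OV
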