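import Pool.Agent.D0H65.OV.LgA

/-! Project OV (helper28), package G (helper65): the differential inequality in space. -/

set_option autoImplicit false

open MeasureTheory Set Metric Filter Topology
open scoped ContDiff ENNReal
open H459R3.NS Pool.Agent.W268.NS

namespace Pool.Agent.D0H65.OV

open Pool.Agent.Q67.AXI Pool.Agent.TH305.AX Pool.Agent.TH305.DR Pool.Agent.Q85.CL
open Pool.Agent.D0H28.OV
open Pool.Agent.W583.MD (sm_pd cs_pd Z Z.add Z.sub Z.smul Z.sum int_cs Z_pd slice hd_slice)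
open Pool.Agent.Q257.AXI (sg_sm RR_mul RR_add sm_RR)
open Pool.Agent.Q175.AX (pd_mul_at pd_comp_at RR_sm lap_sm gr2_sm gr2_nn RR_sq RR_sq' gr2_int gr2_cs
  RRsg_int RRsg_int' axis_ae)

theorem space : ∃ c C : ℝ, 0 < c ∧ 0 < C ∧
    ∀ w F : V → ℝ, ContDiff ℝ ∞ w → ContDiff ℝ ∞ F → AxF w → AxF F → (∀ x, sg x = 0 → w x = 0) →
      Integrable (fun x => ch x ^ 2 * (lap w x - gr2 w x - 2 / sg x * RR w x - TT F w x)) ∧
      ∫ x, ch x ^ 2 * (lap w x - gr2 w x - 2 / sg x * RR w x - TT F w x) ≤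
        -c * (∫ x, ch x ^ 2 * w x) + C * (16 + ∫ x in Co 0 1 1, sg x ^ 3 * F x ^ 6) := by
  obtain ⟨c₀, hc₀, hA⟩ := ax
  have H0 := Pool.Agent.Q257.AXI.t_H0
  obtain ⟨N1, hN1, hR⟩ := RR_ch
  obtain ⟨N2, hN2, hP⟩ := pd_ch
  obtain ⟨N, hN⟩ : ∃ N : ℝ, N = N1 + N2 := ⟨_, rfl⟩
  have hN0 : 0 < N := by rw [hN]; positivity
  have hRN : ∀ x, |RR ch x| ≤ N * sg x := fun x => (hR x).trans
    (mul_le_mul_of_nonneg_right (by rw [hN]; linarith) (sg_nn x))
  have hPN : ∀ x i, |pd i ch x| ≤ N := fun x i => (hP x i).trans (by rw [hN]; linarith)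
  obtain ⟨C₁, hC₁, hpoi⟩ := poi
  have hm := mass_pos
  obtain ⟨m, hme⟩ : ∃ m : ℝ, m = ∫ x, ch x ^ 2 := ⟨_, rfl⟩
  rw [← hme] at hm
  have ha := axis_pos
  obtain ⟨a₀, hae⟩ : ∃ a₀ : ℝ, a₀ = ∫ z : ℝ, ch ![0, 0, z] ^ 2 := ⟨_, rfl⟩
  rw [← hae] at ha
  obtain ⟨δ, hδe⟩ : ∃ δ : ℝ, δ = 3 / (4 * C₁) := ⟨_, rfl⟩
  have hδ : 0 < δ := by rw [hδe]; positivity
  have hδC : δ * C₁ = 3 / 4 := by
    rw [hδe]
    field_simp
  refine ⟨2 * c₀ * a₀ / m, 56 * N ^ 2 + 4 * N ^ 2 / δ, by positivity, by positivity, ?_⟩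
  intro w F sw sF aw aF w0
  obtain ⟨I, hI⟩ : ∃ I : ℝ, I = ∫ x, ch x ^ 2 * w x := ⟨_, rfl⟩
  obtain ⟨wb, hwb⟩ : ∃ wb : ℝ, wb = I / m := ⟨_, rfl⟩
  have sc2 : ContDiff ℝ ∞ (fun y => ch y * ch y) := ch_sm.mul ch_sm
  have cc2 : HasCompactSupport (fun y => ch y * ch y) := ch_cs.mul_right
  -- the pieces
  have z1 : Z (fun x => ∑ i, pd i (fun y => (ch y * ch y) * pd i w y) x) :=
    Z.sum fun i => Z_pd (sc2.mul (sm_pd sw i)) cc2.mul_right i
  obtain ⟨i2, e2⟩ := hA (fun y => (ch y * ch y) * w y) (sc2.mul sw) cc2.mul_right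
  have e2' : ∫ z : ℝ, (ch ![0, 0, z] * ch ![0, 0, z]) * w ![0, 0, z] = 0 := by
    have : (fun z : ℝ => (ch ![0, 0, z] * ch ![0, 0, z]) * w ![0, 0, z]) = fun _ => 0 := by
      funext z
      rw [w0 ![0, 0, z] (by unfold sg; show (0 : ℝ) ^ 2 + (0 : ℝ) ^ 2 = 0; norm_num)]
      ring
    rw [this]
    simp
  rw [e2', mul_zero] at e2
  obtain ⟨i3, e3⟩ := hA (fun y => ch y * ch y) sc2 cc2
  have e3' : ∫ z : ℝ, ch ![0, 0, z] * ch ![0, 0, z] = a₀ := by
    rw [hae]
    refine integral_congr_ae (Eventually.of_forall fun z => ?_)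
    show ch ![0, 0, z] * ch ![0, 0, z] = ch ![0, 0, z] ^ 2
    ring
  rw [e3'] at e3
  have ac2 : AxF (fun y => ch y * ch y) := fun θ x => by simp only [ch_ax θ x]
  have e4 := t_TT F w (fun y => ch y * ch y) sF sw sc2 cc2 aF aw ac2
  have i4 : Integrable (fun x => (ch x * ch x) * TT F w x) := int_cs (sc2.mul (sm_TT sF sw)).continuous cc2.mul_right
  -- the remaining integrand
  obtain ⟨P, hPe⟩ : ∃ P : V → ℝ, P = fun x => (-2 * ∑ i, ch x * pd i ch x * pd i w x) - ch x ^ 2 * gr2 w x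
      + 4 * (ch x * (w x - wb) * (RR ch x / sg x)) := ⟨_, rfl⟩
  obtain ⟨Q, hQe⟩ : ∃ Q : V → ℝ, Q = fun x => F x * (pd 2 (fun y => ch y * ch y) x * RR w x -
      RR (fun y => ch y * ch y) x * pd 2 w x) := ⟨_, rfl⟩
  have iQ : Integrable Q := by
    rw [hQe]
    refine int_cs (sF.mul (((sm_pd sc2 2).mul (sm_RR sw)).sub ((sm_RR sc2).mul (sm_pd sw 2)))).continuous ?_
    refine HasCompactSupport.mul_left ?_
    have cRR : HasCompactSupport (RR (fun y => ch y * ch y)) := by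
      unfold RR
      exact ((cs_pd cc2 0).mul_left).add ((cs_pd cc2 1).mul_left)
    exact ((cs_pd cc2 2).mul_right).sub (cRR.mul_right)
  have iP : Integrable P := by
    rw [hPe]
    have k1 : Integrable (fun x => -2 * ∑ i, ch x * pd i ch x * pd i w x) := by
      refine int_cs (contDiff_const.mul (ContDiff.sum fun i _ =>
        (ch_sm.mul (sm_pd ch_sm i)).mul (sm_pd sw i))).continuous (HasCompactSupport.mul_left ?_)
      have e : (fun x => ∑ i, ch x * pd i ch x * pd i w x) = fun x => ch x * ∑ i, pd i ch x * pd i w x := by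
        funext x
        rw [Finset.mul_sum]
        exact Finset.sum_congr rfl fun i _ => by ring
      rw [e]
      exact ch_cs.mul_right
    have k2 : Integrable (fun x => ch x ^ 2 * gr2 w x) := ch2_int (gr2_sm sw).continuous
    have k3 : Integrable (fun x => (ch x * (w x - wb)) * (RR ch x / sg x)) :=
      RRsg_int H0 (ch_sm.of_le (by norm_cast)) (ch_sm.mul (sw.sub contDiff_const)).continuous ch_cs.mul_right
    have k12 : Integrable (fun x => (-2 * ∑ i, ch x * pd i ch x * pd i w x) - ch x ^ 2 * gr2 w x) := k1.sub k2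
    exact k12.add (k3.const_mul 4)
  have key : ∀ x, ch x ^ 2 * (lap w x - gr2 w x - 2 / sg x * RR w x - TT F w x) =
      ((∑ i, pd i (fun y => (ch y * ch y) * pd i w y) x) + P x)
        + ((-2) * (RR (fun y => (ch y * ch y) * w y) x / sg x) + (2 * wb) * (RR (fun y => ch y * ch y) x / sg x))
        - (ch x * ch x) * TT F w x := by
    intro x
    have e : ∀ i : Fin 3, pd i (fun y => (ch y * ch y) * pd i w y) x
        = (ch x * ch x) * pd i (pd i w) x + (ch x * pd i ch x + pd i ch x * ch x) * pd i w x := by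
      intro i
      have h1 : pd i (fun y => (ch y * ch y) * pd i w y) x
          = (ch x * ch x) * pd i (pd i w) x + pd i (fun y => ch y * ch y) x * pd i w x :=
        congrFun (pd_mulf sc2 (sm_pd sw i) i) x
      have h2 : pd i (fun y => ch y * ch y) x = ch x * pd i ch x + pd i ch x * ch x :=
        congrFun (pd_mulf ch_sm ch_sm i) x
      rw [h1, h2]
    have h3 : RR (fun y => (ch y * ch y) * w y) x = (ch x * ch x) * RR w x + RR (fun y => ch y * ch y) x * w x :=
      RR_mul sc2 sw x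
    have h4 : RR (fun y => ch y * ch y) x = ch x * RR ch x + RR ch x * ch x := RR_mul ch_sm ch_sm x
    rw [hPe]
    simp_rw [e]
    rw [h3, h4]
    unfold lap
    simp_rw [Fin.sum_univ_three]
    ring
  have iZP : Integrable (fun x => (∑ i, pd i (fun y => (ch y * ch y) * pd i w y) x) + P x) := z1.1.add iP
  have i23 : Integrable (fun x => (-2) * (RR (fun y => (ch y * ch y) * w y) x / sg x) +
      (2 * wb) * (RR (fun y => ch y * ch y) x / sg x)) := (i2.const_mul (-2)).add (i3.const_mul (2 * wb))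
  have iA : Integrable (fun x => ((∑ i, pd i (fun y => (ch y * ch y) * pd i w y) x) + P x)
        + ((-2) * (RR (fun y => (ch y * ch y) * w y) x / sg x) + (2 * wb) * (RR (fun y => ch y * ch y) x / sg x))) :=
    iZP.add i23
  have heq : ∫ x, ch x ^ 2 * (lap w x - gr2 w x - 2 / sg x * RR w x - TT F w x) =
      (∫ x, P x) - 2 * c₀ * a₀ / m * I - ∫ x, Q x := by
    simp_rw [key]
    rw [integral_sub iA i4, integral_add iZP i23, integral_add z1.1 iP, z1.2,
      integral_add (i2.const_mul (-2)) (i3.const_mul (2 * wb)), integral_const_mul, integral_const_mul, e2, e3, e4, hQe, hwb]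
    field_simp
    ring
  refine ⟨?_, ?_⟩
  · refine (iA.sub i4).congr (Eventually.of_forall fun x => ?_)
    simp only [Pi.sub_apply]
    exact (key x).symm
  rw [heq, ← hI]
  obtain ⟨jS, hS⟩ := supp_int sF.continuous
  -- the bound
  obtain ⟨C₂, hC₂⟩ : ∃ C₂ : ℝ, C₂ = 56 * N ^ 2 + 4 * N ^ 2 / δ := ⟨_, rfl⟩
  have hC₂0 : 0 ≤ C₂ := by rw [hC₂]; positivity
  have mS : MeasurableSet (tsupport ch) := (isClosed_tsupport ch).measurableSet
  have jSi : Integrable ((tsupport ch).indicator fun x => 1 + sg x * F x ^ 2) := (integrable_indicator_iff mS).2 jS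
  have k2 : Integrable (fun x => ch x ^ 2 * gr2 w x) := ch2_int (gr2_sm sw).continuous
  have k3 : Integrable (fun x => ch x ^ 2 * (w x - wb) ^ 2) := ch2_int ((sw.sub contDiff_const).pow 2).continuous
  have hpt : ∀ x, P x - Q x ≤ (-(3 / 4) * (ch x ^ 2 * gr2 w x) + δ * (ch x ^ 2 * (w x - wb) ^ 2))
        + C₂ * (tsupport ch).indicator (fun x => 1 + sg x * F x ^ 2) x := by
    intro x
    rw [hPe, hQe]
    simp only
    have h2 : pd 2 (fun y => ch y * ch y) x = ch x * pd 2 ch x + pd 2 ch x * ch x := congrFun (pd_mulf ch_sm ch_sm 2) x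
    have h4 : RR (fun y => ch y * ch y) x = ch x * RR ch x + RR ch x * ch x := RR_mul ch_sm ch_sm x
    rw [h2, h4]
    by_cases hx : x ∈ tsupport ch
    · rw [indicator_of_mem hx, hC₂]
      refine le_trans (le_of_eq ?_) (ptw hN0 hδ (hPN x) (hRN x) ((ch_ts hx).1.trans (by norm_num)))
      ring
    · rw [indicator_of_notMem hx]
      obtain ⟨h0, h1, h5, -⟩ := off_supp hx
      rw [h0, h1, h5]
      simp
  have h1 : (∫ x, P x) - ∫ x, Q x ≤ ∫ x, ((-(3 / 4) * (ch x ^ 2 * gr2 w x) + δ * (ch x ^ 2 * (w x - wb) ^ 2))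
        + C₂ * (tsupport ch).indicator (fun x => 1 + sg x * F x ^ 2) x) := by
    rw [← integral_sub iP iQ]
    exact integral_mono (iP.sub iQ) (((k2.const_mul _).add (k3.const_mul _)).add (jSi.const_mul _)) hpt
  have h2 : ∫ x, ((-(3 / 4) * (ch x ^ 2 * gr2 w x) + δ * (ch x ^ 2 * (w x - wb) ^ 2))
        + C₂ * (tsupport ch).indicator (fun x => 1 + sg x * F x ^ 2) x) =
      -(3 / 4) * (∫ x, ch x ^ 2 * gr2 w x) + δ * (∫ x, ch x ^ 2 * (w x - wb) ^ 2) +
        C₂ * ∫ x in tsupport ch, (1 + sg x * F x ^ 2) := by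
    have k23 : Integrable (fun x => -(3 / 4) * (ch x ^ 2 * gr2 w x) + δ * (ch x ^ 2 * (w x - wb) ^ 2)) :=
      (k2.const_mul _).add (k3.const_mul _)
    rw [integral_add k23 (jSi.const_mul _), integral_add (k2.const_mul _) (k3.const_mul _), integral_const_mul,
      integral_const_mul, integral_const_mul, integral_indicator mS]
  -- Poincaré
  have h3 : ∫ x, ch x ^ 2 * (w x - wb) ^ 2 ≤ C₁ * ∫ x, ch x ^ 2 * gr2 w x := by
    have h4 := hpoi (fun x => w x - wb) (sw.sub contDiff_const) (by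
      have e : ∀ x, ch x ^ 2 * (w x - wb) = ch x ^ 2 * w x - wb * ch x ^ 2 := fun x => by ring
      simp_rw [e]
      have q1 : Integrable (fun x => ch x ^ 2 * w x) := ch2_int sw.continuous
      have q0 : Integrable (fun x => ch x ^ 2) := (ch_sm.continuous.pow 2).integrable_of_hasCompactSupport ch2_cs
      have q2 : Integrable (fun x => wb * ch x ^ 2) := q0.const_mul wb
      rw [integral_sub q1 q2, integral_const_mul, ← hI, ← hme, hwb]
      field_simp
      ring)
    have h5 : gr2 (fun x => w x - wb) = gr2 w := by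
      funext x
      unfold gr2
      refine Finset.sum_congr rfl fun i _ => ?_
      congr 1
      unfold pd
      rw [fderiv_sub_const]
    rw [h5] at h4
    exact h4
  have h5 := mul_le_mul_of_nonneg_left h3 hδ.le
  rw [← mul_assoc, hδC] at h5
  have h6 := mul_le_mul_of_nonneg_left hS hC₂0
  rw [hC₂] at h6 h1 h2
  linarith

end Pool.Agent.D0H65.OV
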