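import Pool.Agent.D0H28.OV.D2
import Pool.Agent.W12.MD.POINC

/-! Project OV (helper28), package G (helper65): the cutoff function and the Poincaré inequality. -/

set_option autoImplicit false

open MeasureTheory Set Metric Filter Topology
open scoped ContDiff ENNReal
open H459R3.NS Pool.Agent.W268.NS

namespace Pool.Agent.D0H65.OV

open Pool.Agent.Q67.AXI Pool.Agent.TH305.AX
open Pool.Agent.W12.MD (gg seg both_sides gg_cont gg_nonneg)

/-- The cutoff function. -/
noncomputable def ch (x : V) : ℝ :=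
  Real.smoothTransition (5 / 2 - 8 / 3 * sg x) * Real.smoothTransition (5 / 2 - 8 / 3 * x 2 ^ 2)

theorem sg_smooth : ContDiff ℝ ∞ (fun x : V => sg x) := by
  unfold sg
  fun_prop

theorem ch_sm : ContDiff ℝ ∞ ch := by
  have h := sg_smooth
  unfold ch
  refine (Real.smoothTransition.contDiff.comp (contDiff_const.sub (contDiff_const.mul h))).mul
    (Real.smoothTransition.contDiff.comp ?_)
  fun_prop

theorem ch_nn (x : V) : 0 ≤ ch x := mul_nonneg (Real.smoothTransition.nonneg _) (Real.smoothTransition.nonneg _)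

theorem ch_le (x : V) : ch x ≤ 1 := mul_le_one₀ (Real.smoothTransition.le_one _)
  (Real.smoothTransition.nonneg _) (Real.smoothTransition.le_one _)

theorem ch_ax : AxF ch := by
  intro θ x
  have h1 : sg (rot θ x) = sg x := by
    unfold sg
    show (Real.cos θ * x 0 - Real.sin θ * x 1) ^ 2 + (Real.sin θ * x 0 + Real.cos θ * x 1) ^ 2 = _
    have := Real.sin_sq_add_cos_sq θ
    have h : (Real.cos θ * x 0 - Real.sin θ * x 1) ^ 2 + (Real.sin θ * x 0 + Real.cos θ * x 1) ^ 2 =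
        (Real.sin θ ^ 2 + Real.cos θ ^ 2) * (x 0 ^ 2 + x 1 ^ 2) := by ring
    rw [h, this, one_mul]
  have h2 : (rot θ x) 2 = x 2 := rfl
  unfold ch
  rw [h1, h2]

theorem ch_off {x : V} (hx : ch x ≠ 0) : sg x ≤ 15 / 16 ∧ x 2 ^ 2 ≤ 15 / 16 := by
  constructor
  · by_contra hcon
    apply hx
    unfold ch
    rw [Real.smoothTransition.zero_of_nonpos (by linarith), zero_mul]
  · by_contra hcon
    apply hx
    unfold ch
    rw [Real.smoothTransition.zero_of_nonpos (x := 5 / 2 - 8 / 3 * x 2 ^ 2) (by linarith), mul_zero]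

theorem ch_ts : tsupport ch ⊆ {x | sg x ≤ 15 / 16 ∧ x 2 ^ 2 ≤ 15 / 16} := by
  apply closure_minimal
  · intro x hx
    exact ch_off hx
  · have h := sg_smooth.continuous
    have h2 : Continuous (fun x : V => x 2 ^ 2) := by fun_prop
    exact (isClosed_le h continuous_const).inter (isClosed_le h2 continuous_const)

theorem ch_ball : tsupport ch ⊆ ball (0 : V) 2 := by
  intro x hx
  obtain ⟨h1, h2⟩ := ch_ts hx
  rw [mem_ball_zero_iff, pi_norm_lt_iff (by norm_num)]
  unfold sg at h1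
  intro i
  rw [Real.norm_eq_abs]
  apply abs_lt_of_sq_lt_sq _ (by norm_num)
  fin_cases i
  · show x 0 ^ 2 < 2 ^ 2
    nlinarith [sq_nonneg (x 1)]
  · show x 1 ^ 2 < 2 ^ 2
    nlinarith [sq_nonneg (x 0)]
  · show x 2 ^ 2 < 2 ^ 2
    linarith

theorem ch_cs : HasCompactSupport ch :=
  (isCompact_closedBall (0 : V) 2).of_isClosed_subset (isClosed_tsupport _) (ch_ball.trans ball_subset_closedBall)

theorem ch_Co : tsupport ch ⊆ Co 0 1 1 := by
  intro x hx
  obtain ⟨h1, h2⟩ := ch_ts hx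
  refine ⟨by linarith, ?_⟩
  rw [sub_zero]
  apply abs_lt_of_sq_lt_sq _ (by norm_num)
  linarith

theorem ch_one {x : V} (hx : x ∈ Cy 0 (3 / 4) (3 / 4)) : ch x = 1 := by
  obtain ⟨h1, h2⟩ := hx
  rw [sub_zero] at h2
  have h3 : x 2 ^ 2 ≤ (3 / 4) ^ 2 := by
    rw [← sq_abs]
    exact pow_le_pow_left₀ (abs_nonneg _) h2 2
  unfold ch
  rw [Real.smoothTransition.one_of_one_le (by linarith), Real.smoothTransition.one_of_one_le (by linarith), one_mul]

theorem mul_le_min {a b : ℝ} (ha : 0 ≤ a) (hb : 0 ≤ b) (ha1 : a ≤ 1) (hb1 : b ≤ 1) : a * b ≤ min a b := by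
  apply le_min
  · nlinarith
  · nlinarith

theorem st_seg {u v w : ℝ} (h : w ≤ max u v) :
    Real.smoothTransition (5 / 2 - 8 / 3 * u) * Real.smoothTransition (5 / 2 - 8 / 3 * v) ≤
      Real.smoothTransition (5 / 2 - 8 / 3 * w) := by
  refine (mul_le_min (Real.smoothTransition.nonneg _) (Real.smoothTransition.nonneg _)
    (Real.smoothTransition.le_one _) (Real.smoothTransition.le_one _)).trans ?_
  rcases le_max_iff.1 h with h1 | h1
  · exact (min_le_left _ _).trans (Real.smoothTransition.monotone (by linarith))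
  · exact (min_le_right _ _).trans (Real.smoothTransition.monotone (by linarith))

theorem sq_seg {a b s : ℝ} (hs : 0 ≤ s) (hs1 : s ≤ 1) : (b + s * (a - b)) ^ 2 ≤ s * a ^ 2 + (1 - s) * b ^ 2 := by
  nlinarith [mul_nonneg (mul_nonneg hs (sub_nonneg.2 hs1)) (sq_nonneg (a - b))]

theorem cvx_le {a b s : ℝ} (hs : 0 ≤ s) (hs1 : s ≤ 1) : s * a + (1 - s) * b ≤ max a b := by
  have h1 := le_max_left a b
  have h2 := le_max_right a b
  nlinarith [mul_le_mul_of_nonneg_left h1 hs, mul_le_mul_of_nonneg_left h2 (sub_nonneg.2 hs1)]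

theorem ch_seg {x y : V} {s : ℝ} (hs : 0 ≤ s) (hs1 : s ≤ 1) : ch x * ch y ≤ ch (y + s • (x - y)) := by
  have h0 : ∀ i, (y + s • (x - y)) i = y i + s * (x i - y i) := fun i => rfl
  have h1 : sg (y + s • (x - y)) ≤ max (sg x) (sg y) := by
    refine le_trans ?_ (cvx_le hs hs1)
    unfold sg
    rw [h0, h0]
    have := sq_seg (a := x 0) (b := y 0) hs hs1
    have := sq_seg (a := x 1) (b := y 1) hs hs1
    linarith
  have h2 : (y + s • (x - y)) 2 ^ 2 ≤ max (x 2 ^ 2) (y 2 ^ 2) := by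
    refine le_trans ?_ (cvx_le hs hs1)
    rw [h0]
    exact sq_seg hs hs1
  have k1 := st_seg h1
  have k2 := st_seg h2
  unfold ch
  calc _ = (Real.smoothTransition (5 / 2 - 8 / 3 * sg x) * Real.smoothTransition (5 / 2 - 8 / 3 * sg y)) *
      (Real.smoothTransition (5 / 2 - 8 / 3 * x 2 ^ 2) * Real.smoothTransition (5 / 2 - 8 / 3 * y 2 ^ 2)) := by ring
    _ ≤ _ := mul_le_mul k1 k2 (mul_nonneg (Real.smoothTransition.nonneg _) (Real.smoothTransition.nonneg _))
      (Real.smoothTransition.nonneg _)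

/-- The weighted pointwise inequality on pairs. -/
theorem key2 {f : V → ℝ} (hf : ContDiff ℝ ∞ f) :
    ∫⁻ z in ball (0 : V) 2, ∫⁻ y in ball (0 : V) 2, ENNReal.ofReal (ch z ^ 2 * (ch y ^ 2 * (f z - f y) ^ 2))
      ≤ 24576 * ∫⁻ x, ENNReal.ofReal (ch x ^ 2 * gg f x) := by
  obtain ⟨G, hGdef⟩ : ∃ G : V → ℝ≥0∞, G = fun x => ENNReal.ofReal (ch x ^ 2 * gg f x) := ⟨_, rfl⟩
  have hgc : Continuous (fun x => ch x ^ 2 * gg f x) := (ch_sm.continuous.pow 2).mul (gg_cont hf)
  have hG : Measurable G := by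
    rw [hGdef]
    exact hgc.measurable.ennreal_ofReal
  have hp : ∀ z ∈ ball (0 : V) 2, ∀ y ∈ ball (0 : V) 2,
      ENNReal.ofReal (ch z ^ 2 * (ch y ^ 2 * (f z - f y) ^ 2))
      ≤ 48 * ∫⁻ s in Ioc (0 : ℝ) 1, G (y + s • (z - y)) := by
    intro z hz y hy
    have hcl : Continuous (fun s : ℝ => y + s • (z - y)) := by fun_prop
    have hii : IntegrableOn (fun s : ℝ => ch (y + s • (z - y)) ^ 2 * gg f (y + s • (z - y))) (Ioc 0 1) :=
      ((hgc.comp hcl).intervalIntegrable (μ := volume) 0 1).1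
    have h1 : ch z ^ 2 * (ch y ^ 2 * (f z - f y) ^ 2) ≤
        48 * ∫ s in (0 : ℝ)..1, ch (y + s • (z - y)) ^ 2 * gg f (y + s • (z - y)) := by
      have h2 := mul_le_mul_of_nonneg_left (seg hf hy hz) (sq_nonneg (ch z * ch y))
      have h3 : (ch z * ch y) ^ 2 * (48 * ∫ s in (0 : ℝ)..1, gg f (y + s • (z - y))) =
          48 * ∫ s in (0 : ℝ)..1, (ch z * ch y) ^ 2 * gg f (y + s • (z - y)) := by
        rw [intervalIntegral.integral_const_mul]
        ring
      rw [h3] at h2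
      have h4 : ∫ s in (0 : ℝ)..1, (ch z * ch y) ^ 2 * gg f (y + s • (z - y)) ≤
          ∫ s in (0 : ℝ)..1, ch (y + s • (z - y)) ^ 2 * gg f (y + s • (z - y)) := by
        refine intervalIntegral.integral_mono_on (by norm_num)
          ((((gg_cont hf).comp hcl).const_mul _).intervalIntegrable _ _) ((hgc.comp hcl).intervalIntegrable _ _)
          fun s hs => ?_
        refine mul_le_mul_of_nonneg_right ?_ (gg_nonneg _ _)
        exact pow_le_pow_left₀ (mul_nonneg (ch_nn _) (ch_nn _)) (ch_seg hs.1 hs.2) 2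
      have h5 : ch z ^ 2 * (ch y ^ 2 * (f z - f y) ^ 2) = (ch z * ch y) ^ 2 * (f z - f y) ^ 2 := by ring
      rw [h5]
      linarith
    refine (ENNReal.ofReal_le_ofReal h1).trans ?_
    rw [ENNReal.ofReal_mul (by norm_num)]
    have h48 : ENNReal.ofReal 48 = 48 := by simp
    rw [h48]
    refine mul_le_mul_right ?_ _
    rw [intervalIntegral.integral_of_le (by norm_num),
      ofReal_integral_eq_lintegral_ofReal hii
        (Filter.Eventually.of_forall fun s => mul_nonneg (sq_nonneg _) (gg_nonneg _ _)), hGdef]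
  have hm : Measurable (fun p : (V × ℝ) × V => G (p.2 + p.1.2 • (p.1.1 - p.2))) := by
    refine hG.comp ?_
    fun_prop
  have h1 : ∫⁻ z in ball (0 : V) 2, ∫⁻ y in ball (0 : V) 2, ENNReal.ofReal (ch z ^ 2 * (ch y ^ 2 * (f z - f y) ^ 2))
      ≤ ∫⁻ z in ball (0 : V) 2, ∫⁻ y in ball (0 : V) 2,
        48 * ∫⁻ s in Ioc (0 : ℝ) 1, G (y + s • (z - y)) := by
    refine setLIntegral_mono' measurableSet_ball fun z hz => ?_
    exact setLIntegral_mono' measurableSet_ball fun y hy => hp z hz y hy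
  refine h1.trans ?_
  have h2 : ∫⁻ z in ball (0 : V) 2, ∫⁻ y in ball (0 : V) 2,
        48 * ∫⁻ s in Ioc (0 : ℝ) 1, G (y + s • (z - y))
      = 48 * ∫⁻ s in Ioc (0 : ℝ) 1, ∫⁻ z in ball (0 : V) 2, ∫⁻ y in ball (0 : V) 2,
        G (y + s • (z - y)) := by
    have e1 : ∀ z : V, ∫⁻ y in ball (0 : V) 2, 48 * ∫⁻ s in Ioc (0 : ℝ) 1, G (y + s • (z - y))
        = 48 * ∫⁻ s in Ioc (0 : ℝ) 1, ∫⁻ y in ball (0 : V) 2, G (y + s • (z - y)) := by
      intro z
      rw [lintegral_const_mul' _ _ (by norm_num)]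
      congr 1
      rw [lintegral_lintegral_swap]
      refine (hG.comp ?_).aemeasurable
      fun_prop
    simp_rw [e1]
    rw [lintegral_const_mul' _ _ (by norm_num)]
    congr 1
    rw [lintegral_lintegral_swap]
    exact (hm.lintegral_prod_right').aemeasurable
  rw [h2]
  have h3 : ∫⁻ s in Ioc (0 : ℝ) 1, ∫⁻ z in ball (0 : V) 2, ∫⁻ y in ball (0 : V) 2,
        G (y + s • (z - y)) ≤ 512 * ∫⁻ z, G z := by
    refine (lintegral_mono fun s => both_sides G hG s).trans ?_
    rw [lintegral_const, Measure.restrict_apply_univ, Real.volume_Ioc]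
    simp
  calc 48 * ∫⁻ s in Ioc (0 : ℝ) 1, ∫⁻ z in ball (0 : V) 2, ∫⁻ y in ball (0 : V) 2,
        G (y + s • (z - y)) ≤ 48 * (512 * ∫⁻ z, G z) := mul_le_mul_right h3 _
    _ = 24576 * ∫⁻ x, ENNReal.ofReal (ch x ^ 2 * gg f x) := by
      rw [hGdef, ← mul_assoc]
      norm_num

theorem ch2_cs : HasCompactSupport (fun x => ch x ^ 2) := by
  have e : (fun y => ch y ^ 2) = fun y => ch y * ch y := by funext y; ring
  rw [e]
  exact ch_cs.mul_right

theorem ch2_off {x : V} (hx : x ∉ ball (0 : V) 2) : ch x = 0 := by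
  by_contra hcon
  exact hx (ch_ball (subset_tsupport _ hcon))

theorem ch2_int {g : V → ℝ} (hg : Continuous g) : Integrable (fun x => ch x ^ 2 * g x) :=
  ((ch_sm.continuous.pow 2).mul hg).integrable_of_hasCompactSupport ch2_cs.mul_right

theorem mass_pos : 0 < ∫ x, ch x ^ 2 := by
  have hi : Integrable (fun x => ch x ^ 2) := (ch_sm.continuous.pow 2).integrable_of_hasCompactSupport ch2_cs
  rw [integral_pos_iff_support_of_nonneg (fun x => sq_nonneg _) hi]
  have h1 : ball (0 : V) (1 / 4) ⊆ Function.support (fun x => ch x ^ 2) := by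
    intro x hx
    rw [mem_ball_zero_iff, pi_norm_lt_iff (by norm_num)] at hx
    have h0 := hx 0
    have h1 := hx 1
    have h2 := hx 2
    rw [Real.norm_eq_abs] at h0 h1 h2
    have h3 : x ∈ Cy 0 (3 / 4) (3 / 4) := by
      refine ⟨?_, ?_⟩
      · unfold sg
        have e0 := pow_le_pow_left₀ (abs_nonneg _) h0.le 2
        have e1 := pow_le_pow_left₀ (abs_nonneg _) h1.le 2
        rw [sq_abs] at e0 e1
        norm_num at e0 e1 ⊢
        linarith
      · rw [sub_zero]
        linarith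
    rw [Function.mem_support, ch_one h3]
    norm_num
  exact (measure_ball_pos _ _ (by norm_num)).trans_le (measure_mono h1)

/-- The weighted Poincaré inequality. -/
theorem poi : ∃ C : ℝ, 0 < C ∧ ∀ f : V → ℝ, ContDiff ℝ ∞ f → (∫ x, ch x ^ 2 * f x) = 0 →
    ∫ x, ch x ^ 2 * f x ^ 2 ≤ C * ∫ x, ch x ^ 2 * gr2 f x := by
  have hm := mass_pos
  obtain ⟨m, hme⟩ : ∃ m : ℝ, m = ∫ x, ch x ^ 2 := ⟨_, rfl⟩
  rw [← hme] at hm
  refine ⟨24576 / m, by positivity, fun f hf hmean => ?_⟩
  have hfc := hf.continuous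
  have hsw : ∀ g : V → ℝ, ∫ x in ball (0 : V) 2, ch x ^ 2 * g x = ∫ x, ch x ^ 2 * g x := by
    intro g
    apply setIntegral_eq_integral_of_forall_compl_eq_zero
    intro x hx
    rw [ch2_off hx]
    ring
  -- pointwise
  have h1 : ∀ z, m * (ch z ^ 2 * f z ^ 2) ≤ ∫ y in ball (0 : V) 2, ch z ^ 2 * (ch y ^ 2 * (f z - f y) ^ 2) := by
    intro z
    rw [integral_const_mul, hsw]
    have e : ∀ y, ch y ^ 2 * (f z - f y) ^ 2
        = f z ^ 2 * ch y ^ 2 - 2 * f z * (ch y ^ 2 * f y) + ch y ^ 2 * f y ^ 2 := fun y => by ring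
    simp_rw [e]
    have i1 : Integrable (fun y => f z ^ 2 * ch y ^ 2) :=
      ((ch_sm.continuous.pow 2).integrable_of_hasCompactSupport ch2_cs).const_mul _
    have i2 : Integrable (fun y => 2 * f z * (ch y ^ 2 * f y)) := (ch2_int hfc).const_mul _
    have i3 : Integrable (fun y => ch y ^ 2 * f y ^ 2) := ch2_int (hfc.pow 2)
    have i12 : Integrable (fun y => f z ^ 2 * ch y ^ 2 - 2 * f z * (ch y ^ 2 * f y)) := i1.sub i2
    rw [integral_add i12 i3, integral_sub i1 i2, integral_const_mul, integral_const_mul, hmean, ← hme]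
    have h4 : 0 ≤ ∫ y, ch y ^ 2 * f y ^ 2 := integral_nonneg fun y => by positivity
    have h5 : 0 ≤ ch z ^ 2 := sq_nonneg _
    nlinarith [mul_nonneg h5 h4]
  have hB : 0 ≤ ∫ z, ch z ^ 2 * gr2 f z := integral_nonneg fun z => mul_nonneg (sq_nonneg _) (gg_nonneg f z)
  have hi1 : Integrable (fun z => m * (ch z ^ 2 * f z ^ 2)) := (ch2_int (hfc.pow 2)).const_mul m
  have egr : gr2 f = gg f := rfl
  rw [egr] at hB ⊢
  have h2 : ∫ x, m * (ch x ^ 2 * f x ^ 2) ≤ 24576 * ∫ x, ch x ^ 2 * gg f x := by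
    rw [← ENNReal.ofReal_le_ofReal_iff (by positivity),
      ofReal_integral_eq_lintegral_ofReal hi1 (Filter.Eventually.of_forall fun s => by positivity),
      ENNReal.ofReal_mul (by positivity),
      ofReal_integral_eq_lintegral_ofReal (ch2_int (gg_cont hf))
        (Filter.Eventually.of_forall fun s => mul_nonneg (sq_nonneg _) (gg_nonneg _ _))]
    have e2 : ∫⁻ x, ENNReal.ofReal (m * (ch x ^ 2 * f x ^ 2)) =
        ∫⁻ x in ball (0 : V) 2, ENNReal.ofReal (m * (ch x ^ 2 * f x ^ 2)) := by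
      symm
      apply setLIntegral_eq_of_support_subset
      intro x hx
      by_contra hcon
      apply hx
      simp only
      rw [ch2_off hcon]
      simp
    rw [e2]
    have e3 : ENNReal.ofReal 24576 = 24576 := by simp
    rw [e3]
    refine le_trans (lintegral_mono fun z => ?_) (key2 hf)
    beta_reduce
    have hi3 : IntegrableOn (fun y => ch z ^ 2 * (ch y ^ 2 * (f z - f y) ^ 2)) (ball (0 : V) 2) :=
      ((ch2_int ((continuous_const.sub hfc).pow 2)).const_mul _).integrableOn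
    rw [← ofReal_integral_eq_lintegral_ofReal hi3 (Filter.Eventually.of_forall fun s => by positivity)]
    exact ENNReal.ofReal_le_ofReal (h1 z)
  rw [integral_const_mul] at h2
  rw [div_mul_eq_mul_div, le_div_iff₀ hm, mul_comm]
  exact h2

end Pool.Agent.D0H65.OV
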