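import Pool.Agent.D0H28.OV.Defs

/-! Project OV (helper28), package C1 (helper65): ring averages of the Newton kernel. -/

set_option autoImplicit false

open MeasureTheory Set Metric Filter Topology
open scoped ContDiff
open H459R3.NS Pool.Agent.W268.NS Pool.Agent.Q67.VD

namespace Pool.Agent.D0H65.OV

open Pool.Agent.Q85.CC Pool.Agent.Q85.CL Pool.Agent.TH305.AX Pool.Agent.Q67.AXI
open Pool.Agent.D0H28.OV

/-- The singularity `|x|^(-3/4)` is locally integrable. -/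
theorem loc34 : LocallyIntegrable (fun x : ℝ => |x| ^ (-(3 / 4) : ℝ)) := by
  refine locallyIntegrable_of_norm_le_rpow (μ := (volume : Measure ℝ)) (C := 1) (α := 3 / 4) (by simp)
    (by simp; norm_num) (Eventually.of_forall fun z => ?_) ?_
  · rw [Real.norm_of_nonneg (Real.rpow_nonneg (abs_nonneg _) _), one_mul]
    rfl
  · exact ((continuous_abs.measurable).pow_const _).aestronglyMeasurable

theorem sg_nn (x : V) : 0 ≤ sg x := by
  unfold sg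
  positivity

theorem phase (x y : V) : ∃ θ₀ : ℝ, ∀ θ : ℝ,
    (rot θ x) 0 * y 0 + (rot θ x) 1 * y 1 = √(sg x) * √(sg y) * Real.cos (θ - θ₀) := by
  obtain ⟨z, hz⟩ : ∃ z : ℂ, z = ⟨x 0 * y 0 + x 1 * y 1, x 0 * y 1 - x 1 * y 0⟩ := ⟨_, rfl⟩
  refine ⟨z.arg, fun θ => ?_⟩
  have hn : ‖z‖ = √(sg x) * √(sg y) := by
    rw [← Real.sqrt_mul (sg_nn x), Complex.norm_def, Complex.normSq_apply, hz]
    congr 1
    unfold sg
    ring
  have h1 := Complex.norm_mul_cos_arg z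
  have h2 := Complex.norm_mul_sin_arg z
  rw [hn] at h1 h2
  rw [Real.cos_sub]
  have e : √(sg x) * √(sg y) * (Real.cos θ * Real.cos z.arg + Real.sin θ * Real.sin z.arg) =
      Real.cos θ * (√(sg x) * √(sg y) * Real.cos z.arg) + Real.sin θ * (√(sg x) * √(sg y) * Real.sin z.arg) := by
    ring
  rw [e, h1, h2, hz]
  show (Real.cos θ * x 0 - Real.sin θ * x 1) * y 0 + (Real.sin θ * x 0 + Real.cos θ * x 1) * y 1 = _
  ring

theorem rot_sq (θ : ℝ) (x : V) : (rot θ x) 0 ^ 2 + (rot θ x) 1 ^ 2 = sg x := by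
  show (Real.cos θ * x 0 - Real.sin θ * x 1) ^ 2 + (Real.sin θ * x 0 + Real.cos θ * x 1) ^ 2 = _
  unfold sg
  have := Real.sin_sq_add_cos_sq θ
  have h : (Real.cos θ * x 0 - Real.sin θ * x 1) ^ 2 + (Real.sin θ * x 0 + Real.cos θ * x 1) ^ 2 =
      (Real.sin θ ^ 2 + Real.cos θ ^ 2) * (x 0 ^ 2 + x 1 ^ 2) := by ring
  rw [h, this, one_mul]

theorem rot_cont (x : V) : Continuous fun θ => rot θ x := by
  unfold rot
  apply continuous_pi
  intro i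
  fin_cases i <;> simp <;> fun_prop

theorem rot_per (x : V) : Function.Periodic (fun θ => rot θ x) (2 * Real.pi) := by
  intro θ
  simp only [rot, Real.cos_add_two_pi, Real.sin_add_two_pi]

theorem low_z (θ : ℝ) (x y : V) : |x 2 - y 2| ≤ ‖rot θ x - y‖ := by
  have := norm_le_pi_norm (rot θ x - y) 2
  rw [Real.norm_eq_abs] at this
  exact this

/-- The square of the distance in the plane. -/
theorem low_sq (θ : ℝ) (x y : V) :
    ((rot θ x) 0 - y 0) ^ 2 + ((rot θ x) 1 - y 1) ^ 2 ≤ (√2 * ‖rot θ x - y‖) ^ 2 := by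
  have h0 := norm_le_pi_norm (rot θ x - y) 0
  have h1 := norm_le_pi_norm (rot θ x - y) 1
  rw [Real.norm_eq_abs] at h0 h1
  have e0 : (rot θ x - y) 0 = (rot θ x) 0 - y 0 := rfl
  have e1 : (rot θ x - y) 1 = (rot θ x) 1 - y 1 := rfl
  rw [e0] at h0
  rw [e1] at h1
  have s0 := pow_le_pow_left₀ (abs_nonneg _) h0 2
  have s1 := pow_le_pow_left₀ (abs_nonneg _) h1 2
  rw [sq_abs] at s0 s1
  rw [mul_pow, Real.sq_sqrt (by norm_num)]
  linarith

theorem low_ab {θ φ : ℝ} {x y : V}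
    (h : (rot θ x) 0 * y 0 + (rot θ x) 1 * y 1 = √(sg x) * √(sg y) * Real.cos φ) (hφ : |φ| ≤ Real.pi) :
    |√(sg x) - √(sg y)| ≤ √2 * ‖rot θ x - y‖ ∧ √(sg y) * (|φ| / Real.pi) ≤ √2 * ‖rot θ x - y‖ := by
  have hp := Real.pi_pos
  have hs := low_sq θ x y
  have r1 := rot_sq θ x
  have hx := Real.sq_sqrt (sg_nn x)
  have hy := Real.sq_sqrt (sg_nn y)
  have hyy : sg y = y 0 ^ 2 + y 1 ^ 2 := rfl
  have hA := Real.sqrt_nonneg (sg x)
  have hB := Real.sqrt_nonneg (sg y)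
  obtain ⟨A, hAe⟩ : ∃ A : ℝ, A = √(sg x) := ⟨_, rfl⟩
  obtain ⟨B, hBe⟩ : ∃ B : ℝ, B = √(sg y) := ⟨_, rfl⟩
  rw [← hAe] at hx hA h ⊢
  rw [← hBe] at hy hB h ⊢
  have hc := Real.cos_le_one_sub_mul_cos_sq hφ
  obtain ⟨s, hs'⟩ : ∃ s : ℝ, s = (|φ| / Real.pi) ^ 2 := ⟨_, rfl⟩
  have hs0 : 0 ≤ s := by rw [hs']; positivity
  have hs1 : s ≤ 1 := by
    rw [hs']
    apply pow_le_one₀ (by positivity)
    rw [div_le_one hp]
    exact hφ
  have hc2 : Real.cos φ ≤ 1 - 2 * s := by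
    refine hc.trans (le_of_eq ?_)
    rw [hs', div_pow, sq_abs]
    ring
  have e : ((rot θ x) 0 - y 0) ^ 2 + ((rot θ x) 1 - y 1) ^ 2 = (A - B) ^ 2 + 2 * (A * B) * (1 - Real.cos φ) := by
    have : ((rot θ x) 0 - y 0) ^ 2 + ((rot θ x) 1 - y 1) ^ 2 =
        ((rot θ x) 0 ^ 2 + (rot θ x) 1 ^ 2) + (y 0 ^ 2 + y 1 ^ 2) -
          2 * ((rot θ x) 0 * y 0 + (rot θ x) 1 * y 1) := by ring
    rw [this, r1, ← hyy, h]
    nlinarith
  rw [e] at hs
  have hAB : 0 ≤ A * B := mul_nonneg hA hB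
  have hn : 0 ≤ √2 * ‖rot θ x - y‖ := by positivity
  constructor
  · apply abs_le_of_sq_le_sq _ hn
    have : 0 ≤ 2 * (A * B) * (1 - Real.cos φ) := by
      have := Real.cos_le_one φ
      have : 0 ≤ 1 - Real.cos φ := by linarith
      positivity
    linarith
  · have h2 : (B * (|φ| / Real.pi)) ^ 2 ≤ (√2 * ‖rot θ x - y‖) ^ 2 := by
      refine le_trans ?_ hs
      rw [mul_pow, ← hs']
      have h3 : 2 * (A * B) * (2 * s) ≤ 2 * (A * B) * (1 - Real.cos φ) :=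
        mul_le_mul_of_nonneg_left (by linarith) (by positivity)
      nlinarith [mul_nonneg hs0 (sq_nonneg A), mul_nonneg hs0 hAB, sq_nonneg (A - B),
        mul_nonneg (sub_nonneg.2 hs1) (sq_nonneg (A - B))]
    exact le_of_sq_le_sq h2 hn

/-- The interpolation between the three lower bounds. -/
theorem interp {N a d u : ℝ} (ha : 0 < a) (hd : 0 < d) (hu : 0 < u) (h1 : a ≤ N) (h2 : d ≤ N) (h3 : u ≤ N) :
    N⁻¹ ≤ a ^ (-(1 / 8) : ℝ) * d ^ (-(1 / 8) : ℝ) * u ^ (-(3 / 4) : ℝ) := by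
  have hN : 0 < N := ha.trans_le h1
  have e : N⁻¹ = N ^ (-(1 / 8) : ℝ) * N ^ (-(1 / 8) : ℝ) * N ^ (-(3 / 4) : ℝ) := by
    rw [← Real.rpow_add hN, ← Real.rpow_add hN, ← Real.rpow_neg_one]
    norm_num
  rw [e]
  have k1 : N ^ (-(1 / 8) : ℝ) ≤ a ^ (-(1 / 8) : ℝ) := Real.rpow_le_rpow_of_nonpos ha h1 (by norm_num)
  have k2 : N ^ (-(1 / 8) : ℝ) ≤ d ^ (-(1 / 8) : ℝ) := Real.rpow_le_rpow_of_nonpos hd h2 (by norm_num)
  have k3 : N ^ (-(3 / 4) : ℝ) ≤ u ^ (-(3 / 4) : ℝ) := Real.rpow_le_rpow_of_nonpos hu h3 (by norm_num)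
  gcongr

theorem ring : StmRing := by
  have hp := Real.pi_pos
  have hI0 : IntervalIntegrable (fun φ : ℝ => |φ| ^ (-(3 / 4) : ℝ)) volume (-Real.pi) Real.pi :=
    (loc34.integrableOn_isCompact isCompact_uIcc).intervalIntegrable
  obtain ⟨J, hJ⟩ : ∃ J : ℝ, J = ∫ φ in (-Real.pi)..Real.pi, |φ| ^ (-(3 / 4) : ℝ) := ⟨_, rfl⟩
  have hJ0 : 0 ≤ J := by
    rw [hJ]
    exact intervalIntegral.integral_nonneg (by linarith) fun φ _ => Real.rpow_nonneg (abs_nonneg _) _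
  refine ⟨√2 * Real.pi ^ (3 / 4 : ℝ) * J + 1, by positivity, fun x y hy hxy hz => ?_⟩
  have hd : 0 < |x 2 - y 2| := abs_pos.2 (sub_ne_zero.2 hz)
  have ha : 0 < |√(sg x) - √(sg y)| := abs_pos.2 (sub_ne_zero.2 hxy)
  have hB : 0 < √(sg y) := Real.sqrt_pos.2 hy
  obtain ⟨d, hde⟩ : ∃ d : ℝ, d = |x 2 - y 2| := ⟨_, rfl⟩
  obtain ⟨a, hae⟩ : ∃ a : ℝ, a = |√(sg x) - √(sg y)| := ⟨_, rfl⟩
  obtain ⟨B, hBe⟩ : ∃ B : ℝ, B = √(sg y) := ⟨_, rfl⟩
  have hNpos : ∀ θ, 0 < ‖rot θ x - y‖ := fun θ => hd.trans_le (low_z θ x y)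
  have hcont : Continuous (fun θ => 1 / ‖rot θ x - y‖) := by
    refine continuous_const.div ((rot_cont x).sub continuous_const).norm fun θ => (hNpos θ).ne'
  refine ⟨hcont.intervalIntegrable _ _, ?_⟩
  have hper : Function.Periodic (fun θ => 1 / ‖rot θ x - y‖) (2 * Real.pi) := by
    intro θ
    have := rot_per x θ
    simp only at this ⊢
    rw [this]
  obtain ⟨θ₀, hθ₀⟩ := phase x y
  have e1 : ∫ θ in (0 : ℝ)..(2 * Real.pi), 1 / ‖rot θ x - y‖ =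
      ∫ θ in (θ₀ - Real.pi)..(θ₀ + Real.pi), 1 / ‖rot θ x - y‖ := by
    have := hper.intervalIntegral_add_eq 0 (θ₀ - Real.pi)
    rw [zero_add] at this
    rw [this]
    congr 1
    ring
  rw [e1]
  obtain ⟨k, hk⟩ : ∃ k : ℝ, k = √2 * (a ^ (-(1 / 8) : ℝ) * d ^ (-(1 / 8) : ℝ) * (B / Real.pi) ^ (-(3 / 4) : ℝ)) :=
    ⟨_, rfl⟩
  have hIs : IntervalIntegrable (fun θ : ℝ => |θ - θ₀| ^ (-(3 / 4) : ℝ)) volume (θ₀ - Real.pi) (θ₀ + Real.pi) := by
    have := hI0.comp_sub_right θ₀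
    have e3 : -Real.pi + θ₀ = θ₀ - Real.pi := by ring
    have e4 : Real.pi + θ₀ = θ₀ + Real.pi := by ring
    rw [e3, e4] at this
    exact this
  have e2 : ∫ θ in (θ₀ - Real.pi)..(θ₀ + Real.pi), 1 / ‖rot θ x - y‖ ≤
      ∫ θ in (θ₀ - Real.pi)..(θ₀ + Real.pi), k * |θ - θ₀| ^ (-(3 / 4) : ℝ) := by
    apply intervalIntegral.integral_mono_ae_restrict (by linarith) (hcont.intervalIntegrable _ _) (hIs.const_mul k)
    have hne : ∀ᵐ θ : ℝ ∂(volume.restrict (Icc (θ₀ - Real.pi) (θ₀ + Real.pi))), θ ≠ θ₀ := by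
      apply ae_restrict_of_ae
      rw [ae_iff]
      simp
    filter_upwards [hne, ae_restrict_mem measurableSet_Icc] with θ h1 h2
    have hφ : |θ - θ₀| ≤ Real.pi := by
      rw [abs_le]
      constructor
      · linarith [h2.1]
      · linarith [h2.2]
    have hφ0 : 0 < |θ - θ₀| := abs_pos.2 (sub_ne_zero.2 h1)
    obtain ⟨l1, l2⟩ := low_ab (hθ₀ θ) hφ
    have l3 : d ≤ √2 * ‖rot θ x - y‖ := by
      rw [hde]
      refine (low_z θ x y).trans (le_mul_of_one_le_left (norm_nonneg _) ?_)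
      rw [Real.one_le_sqrt]
      norm_num
    rw [← hae] at l1
    rw [← hBe] at l2
    have hu : 0 < B * (|θ - θ₀| / Real.pi) := by
      rw [hBe]
      positivity
    have l4 := interp (by rw [hae]; exact ha) (by rw [hde]; exact hd) hu l1 l3 l2
    have l5 : (B * (|θ - θ₀| / Real.pi)) ^ (-(3 / 4) : ℝ) =
        (B / Real.pi) ^ (-(3 / 4) : ℝ) * |θ - θ₀| ^ (-(3 / 4) : ℝ) := by
      rw [← Real.mul_rpow (by rw [hBe]; positivity) hφ0.le]
      congr 1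
      ring
    rw [l5] at l4
    have l6 : 1 / ‖rot θ x - y‖ = √2 * (√2 * ‖rot θ x - y‖)⁻¹ := by
      have h2 : √2 ≠ 0 := by positivity
      have h3 := (hNpos θ).ne'
      field_simp
    rw [l6, hk]
    calc √2 * (√2 * ‖rot θ x - y‖)⁻¹ ≤ √2 * (a ^ (-(1 / 8) : ℝ) * d ^ (-(1 / 8) : ℝ) *
          ((B / Real.pi) ^ (-(3 / 4) : ℝ) * |θ - θ₀| ^ (-(3 / 4) : ℝ))) :=
          mul_le_mul_of_nonneg_left l4 (Real.sqrt_nonneg _)
      _ = _ := by ring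
  have e3 : ∫ θ in (θ₀ - Real.pi)..(θ₀ + Real.pi), k * |θ - θ₀| ^ (-(3 / 4) : ℝ) = k * J := by
    rw [intervalIntegral.integral_const_mul, hJ]
    congr 1
    have := intervalIntegral.integral_comp_sub_right (a := θ₀ - Real.pi) (b := θ₀ + Real.pi)
      (fun φ : ℝ => |φ| ^ (-(3 / 4) : ℝ)) θ₀
    rw [this]
    congr 1 <;> ring
  have hBpos : 0 < B := by rw [hBe]; exact hB
  have hb : B * (B / Real.pi) ^ (-(3 / 4) : ℝ) = Real.pi ^ (3 / 4 : ℝ) * B ^ (1 / 4 : ℝ) := by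
    rw [Real.div_rpow hBpos.le hp.le, Real.rpow_neg hp.le, div_inv_eq_mul]
    have : B * B ^ (-(3 / 4) : ℝ) = B ^ (1 / 4 : ℝ) := by
      rw [← Real.rpow_one_add' hBpos.le (by norm_num)]
      norm_num
    rw [← mul_assoc, this]
    ring
  have h5 := mul_le_mul_of_nonneg_left (e2.trans (le_of_eq e3)) hBpos.le
  rw [← hae, ← hde, ← hBe]
  refine h5.trans ?_
  have h6 : B * (k * J) = (√2 * Real.pi ^ (3 / 4 : ℝ) * J) *
      (B ^ (1 / 4 : ℝ) * a ^ (-(1 / 8) : ℝ) * d ^ (-(1 / 8) : ℝ)) := by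
    have : B * (k * J) = √2 * J * (B * (B / Real.pi) ^ (-(3 / 4) : ℝ)) * (a ^ (-(1 / 8) : ℝ) * d ^ (-(1 / 8) : ℝ)) := by
      rw [hk]
      ring
    rw [this, hb]
    ring
  rw [h6]
  have h7 : 0 ≤ B ^ (1 / 4 : ℝ) * a ^ (-(1 / 8) : ℝ) * d ^ (-(1 / 8) : ℝ) := by
    rw [hae, hde]
    positivity
  nlinarith

end Pool.Agent.D0H65.OV
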